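import Pool.Agent.H326.KQ.E

/-!
The Fermat equation modulo an auxiliary prime.
-/

set_option autoImplicit false

namespace Pool.Agent.H326.KQ

open Finset Pool.Agent.H573.AHB

section
variable {s q : ℕ}

lemma aux_n (hq : q.Prime) (hs : s.Prime) (hs2 : 2 < s) (hsq : s ∣ q - 1) :
    s * ((q - 1) / s) = q - 1 ∧ Even ((q - 1) / s) ∧ 1 ≤ (q - 1) / s ∧ s < q := by
  have h1 : s * ((q - 1) / s) = q - 1 := Nat.mul_div_cancel' hsq
  have hq2 := hq.two_le
  have hlt : s ≤ q - 1 := Nat.le_of_dvd (by omega) hsq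
  have hqo : Odd q := hq.odd_of_ne_two (by omega)
  have he : Even (q - 1) := by
    obtain ⟨k, hk⟩ := hqo
    exact ⟨k, by omega⟩
  have hso : ¬ Even s := Nat.not_even_iff_odd.mpr (hs.odd_of_ne_two (by omega))
  rw [← h1] at he
  have h2 := (Nat.even_mul.mp he).resolve_left hso
  refine ⟨h1, h2, ?_, by omega⟩
  rcases Nat.eq_zero_or_pos ((q - 1) / s) with h | h
  · rw [h, mul_zero] at h1
    omega
  · exact h

lemma pw (hq : q.Prime) {n : ℕ} (hn : s * n = q - 1) (a : ZMod q) (ha : a ≠ 0) :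
    (a ^ s) ^ n = 1 := by
  have hF : Fact q.Prime := ⟨hq⟩
  rw [← pow_mul, hn]
  exact ZMod.pow_card_sub_one_eq_one ha

/-- the case of odd `x` -/
lemma locA (hq : q.Prime) (hs : s.Prime) (hs2 : 2 < s) (hsq : s ∣ q - 1)
    (hwf : ¬ WF q ((q - 1) / s)) (y z u v : ZMod q) (h1 : z ^ s - y ^ s = u ^ s)
    (h2 : z ^ s + y ^ s = v ^ s) (hy : y ≠ 0) (hz : z ≠ 0) : False := by
  have hF : Fact q.Prime := ⟨hq⟩
  obtain ⟨hn, hev, hn1, hlt⟩ := aux_n hq hs hs2 hsq
  obtain ⟨n, hnn⟩ : ∃ n, n = (q - 1) / s := ⟨_, rfl⟩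
  rw [← hnn] at hn hev hn1 hwf
  have hs0 : s ≠ 0 := by omega
  have h20 : (2 : ZMod q) ≠ 0 := two_ne q hq (by omega)
  have hys : y ^ s ≠ 0 := pow_ne_zero _ hy
  have hyn := pw hq hn y hy
  have hzn := pw hq hn z hz
  have hbad2 : (2 : ZMod q) ^ n = 1 → False := fun h => by
    apply hwf
    right; left
    have : (4 : ZMod q) = 2 * 2 := by norm_num
    rw [this, mul_pow, h, one_mul]
  by_cases hu : u = 0
  · rw [hu, zero_pow hs0, sub_eq_zero] at h1
    have hv : v ≠ 0 := by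
      rintro rfl
      rw [zero_pow hs0, h1, ← two_mul] at h2
      exact mul_ne_zero h20 hys h2
    have hvn := pw hq hn v hv
    rw [← h2, h1, ← two_mul, mul_pow, hyn, mul_one] at hvn
    exact hbad2 hvn
  have hun := pw hq hn u hu
  by_cases hv : v = 0
  · rw [hv, zero_pow hs0] at h2
    have e : z ^ s = -y ^ s := eq_neg_of_add_eq_zero_left h2
    rw [← h1, e] at hun
    have e2 : -y ^ s - y ^ s = -(2 * y ^ s) := by ring
    rw [e2, hev.neg_pow, mul_pow, hyn, mul_one] at hun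
    exact hbad2 hun
  have hvn := pw hq hn v hv
  apply hwf
  right; right; right; left
  refine ⟨z ^ s / y ^ s, ?_, ?_, ?_⟩
  · rw [div_pow, hyn, hzn, div_one]
  · have e : z ^ s / y ^ s + 1 = v ^ s / y ^ s := by
      rw [← h2]
      field_simp
    rw [e, div_pow, hyn, hvn, div_one]
  · have e : z ^ s / y ^ s - 1 = u ^ s / y ^ s := by
      rw [← h1]
      field_simp
    rw [e, div_pow, hyn, hun, div_one]

/-- the case of even `x` -/
lemma locB (hq : q.Prime) (hs : s.Prime) (hs2 : 2 < s) (hsq : s ∣ q - 1)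
    (hwf : ¬ WF q ((q - 1) / s)) (y z u v : ZMod q) (h1 : 2 * (z ^ s - y ^ s) = u ^ s)
    (h2 : z ^ s + y ^ s = 2 * v ^ s) (hy : y ≠ 0) (hz : z ≠ 0) (hu : u ≠ 0) : False := by
  have hF : Fact q.Prime := ⟨hq⟩
  obtain ⟨hn, hev, hn1, hlt⟩ := aux_n hq hs hs2 hsq
  obtain ⟨n, hnn⟩ : ∃ n, n = (q - 1) / s := ⟨_, rfl⟩
  rw [← hnn] at hn hev hn1 hwf
  have hs0 : s ≠ 0 := by omega
  have h20 : (2 : ZMod q) ≠ 0 := two_ne q hq (by omega)
  have hys : y ^ s ≠ 0 := pow_ne_zero _ hy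
  have hyn := pw hq hn y hy
  have hzn := pw hq hn z hz
  have hun := pw hq hn u hu
  by_cases hv : v = 0
  · rw [hv, zero_pow hs0, mul_zero] at h2
    have e : z ^ s = -y ^ s := eq_neg_of_add_eq_zero_left h2
    rw [← h1, e] at hun
    have e2 : 2 * (-y ^ s - y ^ s) = -(4 * y ^ s) := by ring
    rw [e2, hev.neg_pow, mul_pow, hyn, mul_one] at hun
    exact hwf (Or.inr (Or.inl hun))
  have hvn := pw hq hn v hv
  apply hwf
  right; right; right; right
  refine ⟨z ^ s / y ^ s, ?_, ?_, ?_⟩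
  · rw [div_pow, hyn, hzn, div_one]
  · have e : z ^ s / y ^ s + 1 = 2 * v ^ s / y ^ s := by
      rw [← h2]
      field_simp
    rw [e, div_pow, hyn, mul_pow, hvn, mul_one, div_one]
  · have e : 2 * (z ^ s / y ^ s - 1) = u ^ s / y ^ s := by
      rw [← h1]
      field_simp
    rw [e, div_pow, hyn, hun, div_one]

/-- the last step of Sophie Germain's argument -/
lemma locC (hq : q.Prime) (hs : s.Prime) (hs2 : 2 < s) (hsq : s ∣ q - 1)
    (hwf : ¬ WF q ((q - 1) / s)) (A B w : ZMod q) (hA : A ^ ((q - 1) / s) = 1)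
    (hB : B ^ ((q - 1) / s) = 1) (hAB : A ^ s = B ^ s)
    (h : ∑ i ∈ range s, A ^ i * B ^ (s - 1 - i) = w ^ s) : False := by
  have hF : Fact q.Prime := ⟨hq⟩
  obtain ⟨hn, hev, hn1, hlt⟩ := aux_n hq hs hs2 hsq
  obtain ⟨n, hnn⟩ : ∃ n, n = (q - 1) / s := ⟨_, rfl⟩
  rw [← hnn] at hn hev hn1 hwf hA hB
  have hB0 : B ≠ 0 := by
    rintro rfl
    rw [zero_pow (by omega)] at hB
    exact zero_ne_one hB
  have hsn : n < s := by
    by_contra hcon
    apply hwf
    left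
    have : s * n ≤ n * n := Nat.mul_le_mul_right _ (by omega)
    have e : n ^ 2 = n * n := pow_two n
    omega
  have hco : Nat.Coprime s n := (Nat.Prime.coprime_iff_not_dvd hs).mpr (fun h => by
    have := Nat.le_of_dvd (by omega) h
    omega)
  have hAeq : A = B := by
    have e1 : (A / B) ^ s = 1 := by rw [div_pow, hAB, div_self (pow_ne_zero _ hB0)]
    have e2 : (A / B) ^ n = 1 := by rw [div_pow, hA, hB, div_one]
    have e3 := orderOf_dvd_of_pow_eq_one e1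
    have e4 := orderOf_dvd_of_pow_eq_one e2
    have e5 := Nat.dvd_gcd e3 e4
    rw [hco] at e5
    have e6 : orderOf (A / B) = 1 := Nat.dvd_one.mp e5
    rw [orderOf_eq_one_iff] at e6
    exact (div_eq_one_iff_eq hB0).mp e6
  rw [hAeq] at h
  have h2 : ∑ i ∈ range s, B ^ i * B ^ (s - 1 - i) = (s : ZMod q) * B ^ (s - 1) := by
    rw [Finset.sum_congr rfl (g := fun _ => B ^ (s - 1)) (by
      intro i hi
      rw [Finset.mem_range] at hi
      rw [← pow_add]
      congr 1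
      omega)]
    rw [Finset.sum_const, card_range, nsmul_eq_mul]
  rw [h2] at h
  have hsz : (s : ZMod q) ≠ 0 := by
    intro h0
    rw [ZMod.natCast_eq_zero_iff] at h0
    have := Nat.le_of_dvd (by omega) h0
    omega
  have hw : w ≠ 0 := by
    rintro rfl
    rw [zero_pow (by omega)] at h
    exact mul_ne_zero hsz (pow_ne_zero _ hB0) h
  have hwn := pw hq hn w hw
  rw [← h, mul_pow, ← pow_mul, mul_comm (s - 1) n, pow_mul, hB, one_pow, mul_one] at hwn
  apply hwf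
  right; right; left
  have e1 : (s : ZMod q) * (n : ZMod q) = -1 := by
    have e2 : ((s * n + 1 : ℕ) : ZMod q) = 0 := by
      rw [hn]
      have : q - 1 + 1 = q := by omega
      rw [this]
      exact ZMod.natCast_self q
    push_cast at e2
    exact eq_neg_of_add_eq_zero_left e2
  have e3 := congrArg (fun t => t ^ n) e1
  simp only [mul_pow, hwn, one_mul] at e3
  rw [e3, hev.neg_one_pow]

end

section
variable {R : Type*} [CommRing R]

/-- the first case is impossible if the auxiliary prime divides `XYZ` -/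
lemma first_case {s q : ℕ} (hq : q.Prime) (hs : s.Prime) (hs2 : 2 < s) (hsq : s ∣ q - 1)
    (hwf : ¬ WF q ((q - 1) / s)) (ψ : R →+* ZMod q) (X Y Z : R)
    (r1 : (∃ a, Z - Y = a ^ s) ∧ (∃ b, ∑ i ∈ range s, Z ^ i * Y ^ (s - 1 - i) = b ^ s))
    (r2 : (∃ a, Z - X = a ^ s) ∧ (∃ b, ∑ i ∈ range s, Z ^ i * X ^ (s - 1 - i) = b ^ s))
    (r3 : (∃ a, X - -Y = a ^ s) ∧ (∃ b, ∑ i ∈ range s, X ^ i * (-Y) ^ (s - 1 - i) = b ^ s))
    (nXY : ψ X = 0 → ψ Y = 0 → False) (nXZ : ψ X = 0 → ψ Z = 0 → False)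
    (nYZ : ψ Y = 0 → ψ Z = 0 → False)
    (h : X ^ s + Y ^ s = Z ^ s) (h0 : ψ (X * Y * Z) = 0) : False := by
  have hF : Fact q.Prime := ⟨hq⟩
  have hso : Odd s := hs.odd_of_ne_two (by omega)
  have hs0 : s ≠ 0 := by omega
  obtain ⟨hn, hev, hn1, hlt⟩ := aux_n hq hs hs2 hsq
  obtain ⟨⟨a1, ha1⟩, ⟨a2, ha2⟩⟩ := r1
  obtain ⟨⟨b1, hb1⟩, ⟨b2, hb2⟩⟩ := r2
  obtain ⟨⟨c1, hc1⟩, ⟨c2, hc2⟩⟩ := r3
  have hm := congrArg ψ h
  rw [map_add, map_pow, map_pow, map_pow] at hm
  have ma1 := congrArg ψ ha1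
  have ma2 := congrArg ψ ha2
  have mb1 := congrArg ψ hb1
  have mb2 := congrArg ψ hb2
  have mc1 := congrArg ψ hc1
  have mc2 := congrArg ψ hc2
  rw [map_sub, map_pow] at ma1 mb1 mc1
  rw [map_neg] at mc1
  simp only [map_sum, map_mul, map_pow, map_neg] at ma2 mb2 mc2
  rw [map_mul, map_mul] at h0
  have hpn : ∀ a : R, ψ a ≠ 0 → (ψ a ^ s) ^ ((q - 1) / s) = 1 := fun a ha => pw hq hn _ ha
  rcases mul_eq_zero.mp h0 with h1 | hZ0
  · rcases mul_eq_zero.mp h1 with hX0 | hY0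
    · have hY1 : ψ Y ≠ 0 := fun h => nXY hX0 h
      have hZ1 : ψ Z ≠ 0 := fun h => nXZ hX0 h
      rw [hX0, sub_zero] at mb1
      rw [hX0, zero_sub, neg_neg] at mc1
      have g1 : ψ b1 ≠ 0 := by
        intro h2
        rw [h2, zero_pow hs0] at mb1
        exact hZ1 mb1
      have g2 : ψ c1 ≠ 0 := by
        intro h2
        rw [h2, zero_pow hs0] at mc1
        exact hY1 mc1
      refine locC hq hs hs2 hsq hwf (ψ Z) (ψ Y) (ψ a2) (by rw [mb1]; exact hpn _ g1)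
        (by rw [mc1]; exact hpn _ g2) ?_ ma2
      rw [← hm, hX0, zero_pow hs0, zero_add]
    · have hX1 : ψ X ≠ 0 := fun h => nXY h hY0
      have hZ1 : ψ Z ≠ 0 := fun h => nYZ hY0 h
      rw [hY0, sub_zero] at ma1
      rw [hY0, neg_zero, sub_zero] at mc1
      have g1 : ψ a1 ≠ 0 := by
        intro h2
        rw [h2, zero_pow hs0] at ma1
        exact hZ1 ma1
      have g2 : ψ c1 ≠ 0 := by
        intro h2
        rw [h2, zero_pow hs0] at mc1
        exact hX1 mc1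
      refine locC hq hs hs2 hsq hwf (ψ Z) (ψ X) (ψ b2) (by rw [ma1]; exact hpn _ g1)
        (by rw [mc1]; exact hpn _ g2) ?_ mb2
      rw [← hm, hY0, zero_pow hs0, add_zero]
  · have hX1 : ψ X ≠ 0 := fun h => nXZ h hZ0
    have hY1 : ψ Y ≠ 0 := fun h => nYZ h hZ0
    rw [hZ0, zero_sub] at ma1 mb1
    have g1 : ψ a1 ≠ 0 := by
      intro h2
      rw [h2, zero_pow hs0, neg_eq_zero] at ma1
      exact hY1 ma1
    have g2 : ψ b1 ≠ 0 := by
      intro h2
      rw [h2, zero_pow hs0, neg_eq_zero] at mb1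
      exact hX1 mb1
    have e1 : ψ X ^ ((q - 1) / s) = 1 := by
      rw [← hev.neg_pow, mb1]
      exact hpn _ g2
    refine locC hq hs hs2 hsq hwf (ψ X) (-ψ Y) (ψ c2) e1
        (by rw [ma1]; exact hpn _ g1) ?_ mc2
    rw [hso.neg_pow]
    rw [hZ0, zero_pow hs0] at hm
    exact eq_neg_of_add_eq_zero_left hm

end

end Pool.Agent.H326.KQ
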