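import Pool.Agent.H326.FC.A

/-!
The local configuration over a ring `R` with a homomorphism to `ZMod q`.
-/

set_option autoImplicit false

namespace Pool.Agent.H326.KQ

open Polynomial
open Pool.Agent.H573.AHB

variable {R : Type*} [CommRing R] [IsDomain R]

/-- `s`-th powers have `n`-th power one modulo `q` -/
lemma powR (q s n : ℕ) (hq : q.Prime) (hsn : s * n = q - 1) (ψ : R →+* ZMod q) (b c : ℕ)
    (w W : R) (hb : (b : ZMod q) ≠ 0) (h : (b : R) * W = c * w ^ s) :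
    ψ W = 0 ∨ ((b : ZMod q) * ψ W) ^ n = (c : ZMod q) ^ n := by
  have hF : Fact q.Prime := ⟨hq⟩
  have h2 : (b : ZMod q) * ψ W = (c : ZMod q) * (ψ w) ^ s := by
    have := congrArg ψ h
    rwa [map_mul, map_mul, map_natCast, map_natCast, map_pow] at this
  by_cases hw : ψ w = 0
  · left
    have hs : s ≠ 0 := by
      rintro rfl
      have := hq.two_le
      omega
    rw [hw, zero_pow hs, mul_zero] at h2
    exact (mul_eq_zero.mp h2).resolve_left hb
  · right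
    rw [h2, mul_pow, ← pow_mul, hsn, ZMod.pow_card_sub_one_eq_one hw, mul_one]

/-- a bad pair from elements of `R` -/
lemma badR_of (m a1 a2 b1 b2 e h : ℕ) (zU zV : Prop) (E : ℤ[X]) (q s n : ℕ)
    (hq : q.Prime) (hsn : s * n = q - 1) (ψ : R →+* ZMod q)
    (ha2 : (a2 : ZMod q) ≠ 0) (hb2 : (b2 : ZMod q) ≠ 0) (u v w1 w2 w3 w4 : R)
    (huv : IsCoprime u v)
    (h1 : a2 * u = a1 * w1 ^ s) (h2 : b2 * v = b1 * w2 ^ s) (h3 : Fh 1 u v m = e * w3 ^ s)
    (h4 : Gh 1 u v m = h * w4 ^ s) (gU : zU → ψ u ≠ 0) (gV : zV → ψ v ≠ 0)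
    (gE : ∀ t : ZMod q, ψ v = ψ u * t → aeval t E ≠ 0) :
    BadF 1 m a1 a2 b1 b2 e h zU zV E q n := by
  have hF : Fact q.Prime := ⟨hq⟩
  obtain ⟨m1, m2⟩ := map_FGh ψ 1 u v m
  rw [map_one] at m1 m2
  have hone : ((1 : ℕ) : ZMod q) ≠ 0 := by rw [Nat.cast_one]; exact one_ne_zero
  refine ⟨ψ u, ψ v, ?_, gU, gV, gE, powR q s n hq hsn ψ a2 a1 w1 u ha2 h1,
    powR q s n hq hsn ψ b2 b1 w2 v hb2 h2, ?_, ?_⟩
  · by_contra hcon
    push Not at hcon
    obtain ⟨r, t, hrt⟩ := huv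
    have := congrArg ψ hrt
    rw [map_add, map_mul, map_mul, hcon.1, hcon.2, map_one, mul_zero, mul_zero, add_zero] at this
    exact zero_ne_one this
  · rw [Int.cast_one, ← m1]
    have := powR q s n hq hsn ψ 1 e w3 (Fh 1 u v m) hone (by rw [Nat.cast_one, one_mul, h3])
    rwa [Nat.cast_one, one_mul] at this
  · rw [Int.cast_one, ← m2]
    have := powR q s n hq hsn ψ 1 h w4 (Gh 1 u v m) hone (by rw [Nat.cast_one, one_mul, h4])
    rwa [Nat.cast_one, one_mul] at this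

/-- the forms modulo `p = 2m+1` -/
lemma FG_dvd (m : ℕ) (hp : (2 * m + 1).Prime) (u v : R) :
    ((2 * m + 1 : ℕ) : R) ∣ 2 * u * Fh 1 u v m - 2 * u ^ (2 * m + 1) ∧
    ((2 * m + 1 : ℕ) : R) ∣ 2 * v * Gh 1 u v m - 2 * v ^ (2 * m + 1) := by
  have hF : Fact (2 * m + 1).Prime := ⟨hp⟩
  have h1 := pow_FG (δ := (1 : R)) (ω := 1) (by norm_num) u v m
  have h2 := pow_FG' (δ := (1 : R)) (ω := 1) (by norm_num) u v m
  rw [one_mul] at h1 h2
  obtain ⟨r1, hr1⟩ := exists_add_pow_prime_eq hp u v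
  obtain ⟨r2, hr2⟩ := exists_add_pow_prime_eq hp u (-v)
  rw [Odd.neg_pow ⟨m, rfl⟩, ← sub_eq_add_neg] at hr2
  rw [hr1] at h1
  rw [hr2] at h2
  constructor
  · exact ⟨u * v * r1 + u * -v * r2, by linear_combination -h1 - h2⟩
  · exact ⟨u * v * r1 - u * -v * r2, by linear_combination -h1 + h2⟩

/-- coprimality of `u` and `F` -/
lemma copF (m : ℕ) (u v : R) (huv : IsCoprime u v)
    (hu : IsCoprime ((2 * m + 1 : ℕ) : R) u) : IsCoprime u (Fh 1 u v m) := by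
  obtain ⟨k, hk⟩ := FG_mod_u 1 u v m
  have h1 : Fh 1 u v m = (2 * m + 1) * (1 * v ^ 2) ^ m + u * k := by linear_combination hk
  rw [h1]
  refine IsCoprime.add_mul_left_right ?_ _
  push_cast at hu
  exact hu.symm.mul_right (IsCoprime.pow_right (isCoprime_one_right.mul_right huv.pow_right))

lemma copG (m : ℕ) (u v : R) (huv : IsCoprime u v)
    (hv : IsCoprime ((2 * m + 1 : ℕ) : R) v) : IsCoprime v (Gh 1 u v m) := by
  obtain ⟨k, hk⟩ := FG_mod_v 1 u v m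
  have h1 : Gh 1 u v m = (2 * m + 1) * u ^ (2 * m) + v * k := by linear_combination hk
  rw [h1]
  refine IsCoprime.add_mul_left_right ?_ _
  push_cast at hv
  exact hv.symm.mul_right huv.symm.pow_right

lemma secF (m : ℕ) (u v : R) (huv : IsCoprime u v) (hu : ((2 * m + 1 : ℕ) : R) ∣ u) :
    ∃ F1 : R, Fh 1 u v m = ((2 * m + 1 : ℕ) : R) * F1 ∧
      IsCoprime (((2 * m + 1 : ℕ) : R) * u) F1 := by
  obtain ⟨k, hk⟩ := (FG_mod_u2 1 u v m).1
  obtain ⟨r, hr⟩ := hu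
  refine ⟨(1 * v ^ 2) ^ m + u * (r * k), ?_, ?_⟩
  · have h1 : Fh 1 u v m = (2 * m + 1) * (1 * v ^ 2) ^ m + u ^ 2 * k := by linear_combination hk
    have h2 : u ^ 2 = ((2 * m + 1 : ℕ) : R) * (u * r) := by
      rw [pow_two]
      nth_rewrite 2 [hr]
      ring
    rw [h1, h2]
    push_cast
    ring
  · have h1 : IsCoprime u ((1 * v ^ 2) ^ m + u * (r * k)) := by
      refine IsCoprime.add_mul_left_right ?_ _
      exact IsCoprime.pow_right (isCoprime_one_right.mul_right huv.pow_right)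
    refine IsCoprime.mul_left ?_ h1
    exact h1.of_isCoprime_of_dvd_left ⟨r, hr⟩

lemma secG (m : ℕ) (u v : R) (huv : IsCoprime u v) (hv : ((2 * m + 1 : ℕ) : R) ∣ v) :
    ∃ G1 : R, Gh 1 u v m = ((2 * m + 1 : ℕ) : R) * G1 ∧
      IsCoprime (((2 * m + 1 : ℕ) : R) * v) G1 := by
  obtain ⟨k, hk⟩ := (FG_mod_v2 1 u v m).1
  obtain ⟨r, hr⟩ := hv
  refine ⟨u ^ (2 * m) + v * (r * k), ?_, ?_⟩
  · have h1 : Gh 1 u v m = (2 * m + 1) * u ^ (2 * m) + v ^ 2 * k := by linear_combination hk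
    have h2 : v ^ 2 = ((2 * m + 1 : ℕ) : R) * (v * r) := by
      rw [pow_two]
      nth_rewrite 2 [hr]
      ring
    rw [h1, h2]
    push_cast
    ring
  · have h1 : IsCoprime v (u ^ (2 * m) + v * (r * k)) := by
      refine IsCoprime.add_mul_left_right ?_ _
      exact huv.symm.pow_right
    refine IsCoprime.mul_left ?_ h1
    exact h1.of_isCoprime_of_dvd_left ⟨r, hr⟩

/-- **The local configuration** over `R`. -/
theorem cfgR (m κ : ℕ) (hm : OKm m) (hκ : ¬ (2 * m + 1) ∣ κ) (hκ0 : (κ : R) ≠ 0)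
    (hp0 : ((2 * m + 1 : ℕ) : R) ≠ 0) (h2p : ((2 * m + 1 : ℕ) : R) ∣ 2 → False)
    (s q : ℕ) (hs0 : s ≠ 0)
    (hpow : ∀ a b c : R, c ≠ 0 → IsCoprime a b → a * b = c ^ s → ∃ d, a = d ^ s)
    (hq : q.Prime) (hqm : 2 * (2 * m + 1) < q) (hsq : s ∣ q - 1) (ψ : R →+* ZMod q)
    (U V F' G' x y : R) (hx0 : x ≠ 0) (hy0 : y ≠ 0) (huv : IsCoprime U V)
    (hF : Fh 1 U V m = κ * F') (hG : Gh 1 U V m = κ * G') (hx : U * F' = x ^ s)
    (hy : V * G' = y ^ s) :
    (IsCoprime ((2 * m + 1 : ℕ) : R) x → IsCoprime ((2 * m + 1 : ℕ) : R) y → ∀ E : ℤ[X],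
      (∀ t : ZMod q, ψ V = ψ U * t → aeval t E ≠ 0) → BadZ 1 m 1 1 κ E q ((q - 1) / s)) ∧
    (Prime ((2 * m + 1 : ℕ) : R) → ((2 * m + 1 : ℕ) : R) ∣ x → ∀ zU : Prop, (zU → ψ U ≠ 0) →
      BadX 1 m 1 1 κ zU q ((q - 1) / s)) ∧
    (Prime ((2 * m + 1 : ℕ) : R) → ((2 * m + 1 : ℕ) : R) ∣ y → ∀ zV : Prop, (zV → ψ V ≠ 0) →
      BadY 1 m 1 1 κ zV q ((q - 1) / s)) := by
  have hF1 : Fact q.Prime := ⟨hq⟩
  have hp := hm.2
  have hm1 := hm.1
  have hsn : s * ((q - 1) / s) = q - 1 := Nat.mul_div_cancel' hsq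
  have h1q : ((1 : ℕ) : ZMod q) ≠ 0 := by rw [Nat.cast_one]; exact one_ne_zero
  have hpq : ((2 * m + 1 : ℕ) : ZMod q) ≠ 0 := natCast_ne_zero_of_lt (by omega) (by omega) (ZMod q)
  have hpk : IsCoprime ((2 * m + 1 : ℕ) : R) (κ : R) := by
    have h1 : Nat.Coprime (2 * m + 1) κ := (Nat.Prime.coprime_iff_not_dvd hp).mpr hκ
    have h2 : IsCoprime ((2 * m + 1 : ℕ) : ℤ) (κ : ℤ) := Nat.isCoprime_iff_coprime.mpr h1
    have := h2.intCast (R := R)
    push_cast at this ⊢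
    exact this
  have partU : IsCoprime ((2 * m + 1 : ℕ) : R) U → ∃ w1 w3 : R, U = w1 ^ s ∧ F' = w3 ^ s := by
    intro hpU
    have hFc := copF m U V huv hpU
    rw [hF] at hFc
    have hc := hFc.of_mul_right_right
    obtain ⟨w1, h1⟩ := hpow U F' x hx0 hc hx
    obtain ⟨w3, h3⟩ := hpow F' U x hx0 hc.symm (by rw [mul_comm]; exact hx)
    exact ⟨w1, w3, h1, h3⟩
  have partV : IsCoprime ((2 * m + 1 : ℕ) : R) V → ∃ w2 w4 : R, V = w2 ^ s ∧ G' = w4 ^ s := by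
    intro hpV
    have hGc := copG m U V huv hpV
    rw [hG] at hGc
    have hc := hGc.of_mul_right_right
    obtain ⟨w1, h1⟩ := hpow V G' y hy0 hc hy
    obtain ⟨w3, h3⟩ := hpow G' V y hy0 hc.symm (by rw [mul_comm]; exact hy)
    exact ⟨w1, w3, h1, h3⟩
  have h1R : ∀ w z : R, w = z ^ s → ((1 : ℕ) : R) * w = ((1 : ℕ) : R) * z ^ s := by
    intro w z h
    rw [Nat.cast_one, one_mul, one_mul, h]
  refine ⟨?_, ?_, ?_⟩
  · intro hpx hpy E hE
    have hU : IsCoprime ((2 * m + 1 : ℕ) : R) U := by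
      have h1 : IsCoprime ((2 * m + 1 : ℕ) : R) (x ^ s) := hpx.pow_right
      rw [← hx] at h1
      exact h1.of_mul_right_left
    have hV : IsCoprime ((2 * m + 1 : ℕ) : R) V := by
      have h1 : IsCoprime ((2 * m + 1 : ℕ) : R) (y ^ s) := hpy.pow_right
      rw [← hy] at h1
      exact h1.of_mul_right_left
    obtain ⟨w1, w3, e1, e3⟩ := partU hU
    obtain ⟨w2, w4, e2, e4⟩ := partV hV
    exact badR_of m 1 1 1 1 κ κ False False E q s _ hq hsn ψ h1q h1q U V w1 w2 w3 w4 huv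
      (h1R _ _ e1) (h1R _ _ e2) (by rw [hF, e3]) (by rw [hG, e4]) (fun h => h.elim)
      (fun h => h.elim) hE
  · intro hpp h zU hzU
    have hpU : ((2 * m + 1 : ℕ) : R) ∣ U := by
      have h1 : ((2 * m + 1 : ℕ) : R) ∣ U * F' := by
        rw [hx]
        exact dvd_pow h hs0
      rcases hpp.dvd_or_dvd h1 with h2 | h2
      · exact h2
      · have h3 : ((2 * m + 1 : ℕ) : R) ∣ 2 * U ^ (2 * m + 1) := by
          have h4 := (FG_dvd m hp U V).1
          have h5 : ((2 * m + 1 : ℕ) : R) ∣ 2 * U * Fh 1 U V m := by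
            rw [hF]
            exact (h2.mul_left _).mul_left _
          exact (dvd_sub_right h5).mp h4
        rcases hpp.dvd_or_dvd h3 with h4 | h4
        · exact (h2p h4).elim
        · exact hpp.dvd_of_dvd_pow h4
    have hpV : IsCoprime ((2 * m + 1 : ℕ) : R) V := huv.of_isCoprime_of_dvd_left hpU
    obtain ⟨w2, w4, e2, e4⟩ := partV hpV
    obtain ⟨F1, h1, h2⟩ := secF m U V huv hpU
    rw [hF] at h1
    have hpF' : ((2 * m + 1 : ℕ) : R) ∣ F' := by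
      apply hpk.dvd_of_dvd_mul_left
      rw [h1]
      exact dvd_mul_right _ _
    obtain ⟨P, hP⟩ := hpF'
    have hF1' : F1 = κ * P := by
      apply mul_left_cancel₀ hp0
      rw [← h1, hP]
      ring
    rw [hF1'] at h2
    have hc := h2.of_mul_right_right
    have hprod : (((2 * m + 1 : ℕ) : R) * U) * P = x ^ s := by
      rw [← hx, hP]
      ring
    obtain ⟨w1, e1⟩ := hpow _ _ x hx0 hc hprod
    obtain ⟨w3, e3⟩ := hpow _ _ x hx0 hc.symm (by rw [mul_comm]; exact hprod)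
    refine badR_of m 1 (2 * m + 1) 1 1 ((2 * m + 1) * κ) κ zU False 1 q s _ hq hsn ψ hpq h1q
      U V w1 w2 w3 w4 huv (by rw [Nat.cast_one, one_mul, e1]) (h1R _ _ e2) ?_ (by rw [hG, e4])
      hzU (fun h => h.elim) (fun t _ => by simp)
    rw [hF, hP, e3]
    push_cast
    ring
  · intro hpp h zV hzV
    have hpV : ((2 * m + 1 : ℕ) : R) ∣ V := by
      have h1 : ((2 * m + 1 : ℕ) : R) ∣ V * G' := by
        rw [hy]
        exact dvd_pow h hs0
      rcases hpp.dvd_or_dvd h1 with h2 | h2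
      · exact h2
      · have h3 : ((2 * m + 1 : ℕ) : R) ∣ 2 * V ^ (2 * m + 1) := by
          have h4 := (FG_dvd m hp U V).2
          have h5 : ((2 * m + 1 : ℕ) : R) ∣ 2 * V * Gh 1 U V m := by
            rw [hG]
            exact (h2.mul_left _).mul_left _
          exact (dvd_sub_right h5).mp h4
        rcases hpp.dvd_or_dvd h3 with h4 | h4
        · exact (h2p h4).elim
        · exact hpp.dvd_of_dvd_pow h4
    have hpU : IsCoprime ((2 * m + 1 : ℕ) : R) U := huv.symm.of_isCoprime_of_dvd_left hpV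
    obtain ⟨w1, w3, e1, e3⟩ := partU hpU
    obtain ⟨G1, h1, h2⟩ := secG m U V huv hpV
    rw [hG] at h1
    have hpG' : ((2 * m + 1 : ℕ) : R) ∣ G' := by
      apply hpk.dvd_of_dvd_mul_left
      rw [h1]
      exact dvd_mul_right _ _
    obtain ⟨P, hP⟩ := hpG'
    have hG1' : G1 = κ * P := by
      apply mul_left_cancel₀ hp0
      rw [← h1, hP]
      ring
    rw [hG1'] at h2
    have hc := h2.of_mul_right_right
    have hprod : (((2 * m + 1 : ℕ) : R) * V) * P = y ^ s := by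
      rw [← hy, hP]
      ring
    obtain ⟨w2, e2⟩ := hpow _ _ y hy0 hc hprod
    obtain ⟨w4, e4⟩ := hpow _ _ y hy0 hc.symm (by rw [mul_comm]; exact hprod)
    refine badR_of m 1 1 1 ((2 * m + 1) * 1) κ ((2 * m + 1) * κ) False zV 1 q s _ hq hsn ψ h1q
      (by rw [mul_one]; exact hpq) U V w1 w2 w3 w4 huv (h1R _ _ e1)
      (by rw [mul_one, Nat.cast_one, one_mul, e2]) (by rw [hF, e3]) ?_
      (fun h => h.elim) hzV (fun t _ => by simp)
    rw [hG, hP, e4]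
    push_cast
    ring

end Pool.Agent.H326.KQ
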