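import Pool.Agent.H326.KQ.A

/-!
The local theorems for `x^{2s} - y^{2s} = z^p` and `x^s + b^{2p} = c^{2p}` over a ring `R`.
-/

set_option autoImplicit false

namespace Pool.Agent.H326.KQ

open Polynomial
open Pool.Agent.H573.AHB Pool.Agent.H326.FC

variable {R : Type*} [CommRing R] [IsDomain R]

lemma cop2 {C B : R} (h : IsCoprime C B) (ho : IsCoprime (C - B) 2) :
    IsCoprime (C - B) (C + B) := by
  have h1 : IsCoprime (C - B) (2 * B) := by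
    apply ho.mul_right
    have e : C - B = C + B * (-1) := by ring
    rw [e]
    exact h.add_mul_left_left (-1)
  have h2 : C + B = 2 * B + (C - B) * 1 := by ring
  rw [h2]
  exact h1.add_mul_left_right 1

/-- the descent for `X² - Y² = z^p` -/
lemma desc (m : ℕ) (h20 : (2 : R) ≠ 0)
    (hpow : ∀ a b c : R, c ≠ 0 → IsCoprime a b → a * b = c ^ (2 * m + 1) → ∃ d, a = d ^ (2 * m + 1))
    (h2d : ∀ a b : R, IsCoprime a 2 → IsCoprime b 2 → 2 ∣ a ^ (2 * m + 1) - b ^ (2 * m + 1) →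
      2 ∣ a - b) (X Y z : R) (hco : IsCoprime X Y) (hz : IsCoprime z 2) (hz0 : z ≠ 0)
    (h : X ^ 2 - Y ^ 2 = z ^ (2 * m + 1)) :
    ∃ u v : R, X = u * Fh 1 u v m ∧ Y = v * Gh 1 u v m := by
  have hprod : (X - Y) * (X + Y) = z ^ (2 * m + 1) := by rw [← h]; ring
  have hz2 : IsCoprime ((X - Y) * (X + Y)) 2 := by
    rw [hprod]
    exact hz.pow_left
  have h1 : IsCoprime (X - Y) 2 := hz2.of_mul_left_left
  have hc := cop2 hco h1
  obtain ⟨α, hα⟩ := hpow _ _ z hz0 hc hprod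
  obtain ⟨β, hβ⟩ := hpow _ _ z hz0 hc.symm (by rw [mul_comm]; exact hprod)
  have hα2 : IsCoprime α 2 := by
    rw [hα] at h1
    exact (IsCoprime.pow_left_iff (by omega)).mp h1
  have hβ2 : IsCoprime β 2 := by
    have h2 : IsCoprime (X + Y) 2 := hz2.of_mul_left_right
    rw [hβ] at h2
    exact (IsCoprime.pow_left_iff (by omega)).mp h2
  obtain ⟨v, hv⟩ := h2d β α hβ2 hα2 ⟨Y, by rw [← hα, ← hβ]; ring⟩
  have e1 := pow_FG (δ := (1 : R)) (ω := 1) (by norm_num) (β - v) v m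
  have e2 := pow_FG' (δ := (1 : R)) (ω := 1) (by norm_num) (β - v) v m
  have e3 : β - v + 1 * v = β := by ring
  have e4 : β - v - 1 * v = α := by linear_combination hv
  rw [e3, ← hβ] at e1
  rw [e4, ← hα] at e2
  refine ⟨β - v, v, ?_, ?_⟩
  · apply mul_left_cancel₀ h20
    linear_combination e1 + e2
  · apply mul_left_cancel₀ h20
    linear_combination e1 - e2

/-- the local theorem for `x^{2s} - y^{2s} = z^p` -/
theorem loc_diff (m : ℕ) (hm : OKm m) (h20 : (2 : R) ≠ 0) (hp0 : ((2 * m + 1 : ℕ) : R) ≠ 0)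
    (h2p : ((2 * m + 1 : ℕ) : R) ∣ 2 → False) (s q : ℕ) (hs0 : s ≠ 0)
    (hpowp : ∀ a b c : R, c ≠ 0 → IsCoprime a b → a * b = c ^ (2 * m + 1) →
      ∃ d, a = d ^ (2 * m + 1))
    (hpows : ∀ a b c : R, c ≠ 0 → IsCoprime a b → a * b = c ^ s → ∃ d, a = d ^ s)
    (h2d : ∀ a b : R, IsCoprime a 2 → IsCoprime b 2 → 2 ∣ a ^ (2 * m + 1) - b ^ (2 * m + 1) →
      2 ∣ a - b)
    (hq : q.Prime) (hqm : 2 * (2 * m + 1) < q) (hsq : s ∣ q - 1) (ψ : R →+* ZMod q)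
    (hnb : ¬ W1 1 m q ((q - 1) / s)) (x y z : R) (hx0 : x ≠ 0) (hy0 : y ≠ 0) (hz0 : z ≠ 0)
    (hco : IsCoprime x y) (hz : IsCoprime z 2)
    (heq : x ^ (2 * s) - y ^ (2 * s) = z ^ (2 * m + 1)) :
    (IsCoprime ((2 * m + 1 : ℕ) : R) x → IsCoprime ((2 * m + 1 : ℕ) : R) y → False) ∧
    (Prime ((2 * m + 1 : ℕ) : R) → ((2 * m + 1 : ℕ) : R) ∣ x → ψ x = 0) ∧
    (Prime ((2 * m + 1 : ℕ) : R) → ((2 * m + 1 : ℕ) : R) ∣ y → ψ y = 0) := by
  have hF1 : Fact q.Prime := ⟨hq⟩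
  have hco2 : IsCoprime (x ^ s) (y ^ s) := hco.pow
  obtain ⟨u, v, hu, hv⟩ := desc m h20 hpowp h2d (x ^ s) (y ^ s) z hco2 hz hz0 (by
    rw [← heq]
    ring)
  have huv : IsCoprime u v := by
    rw [hu, hv] at hco2
    exact hco2.of_mul_left_left.of_mul_right_left
  have h1n : ¬ (2 * m + 1) ∣ 1 := odd_not_dvd_le_two m 1 hm le_rfl (by norm_num)
  obtain ⟨c1, c2, c3⟩ := cfgR m 1 hm h1n (by rw [Nat.cast_one]; exact one_ne_zero) hp0 h2p s q hs0
    hpows hq hqm hsq ψ u v (Fh 1 u v m) (Gh 1 u v m) x y hx0 hy0 huv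
    (by rw [Nat.cast_one, one_mul]) (by rw [Nat.cast_one, one_mul]) hu.symm hv.symm
  refine ⟨?_, ?_, ?_⟩
  · intro h1 h2
    refine hnb ⟨hm, Or.inl ?_⟩
    rw [pow_zero]
    exact c1 h1 h2 1 (fun t _ => by rw [map_one]; exact one_ne_zero)
  · intro h1 h2
    by_contra hx
    refine hnb ⟨hm, Or.inr (Or.inl ?_)⟩
    rw [pow_zero]
    refine c2 h1 h2 True (fun _ h => hx ?_)
    have h3 : ψ (x ^ s) = 0 := by rw [hu, map_mul, h, zero_mul]
    rw [map_pow] at h3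
    exact (pow_eq_zero_iff hs0).mp h3
  · intro h1 h2
    by_contra hx
    refine hnb ⟨hm, Or.inr (Or.inr ?_)⟩
    rw [pow_zero]
    refine c3 h1 h2 True (fun _ h => hx ?_)
    have h3 : ψ (y ^ s) = 0 := by rw [hv, map_mul, h, zero_mul]
    rw [map_pow] at h3
    exact (pow_eq_zero_iff hs0).mp h3

/-- the local theorem for `x^s + b^{2p} = c^{2p}`, `x` prime to `2` -/
theorem loc_pow (m : ℕ) (hm : OKm m) (h20 : (2 : R) ≠ 0) (hp0 : ((2 * m + 1 : ℕ) : R) ≠ 0)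
    (h2p : ((2 * m + 1 : ℕ) : R) ∣ 2 → False) (s q : ℕ) (hs0 : s ≠ 0)
    (hpows : ∀ a b c : R, c ≠ 0 → IsCoprime a b → a * b = c ^ s → ∃ d, a = d ^ s)
    (hq : q.Prime) (hqm : 2 * (2 * m + 1) < q) (hsq : s ∣ q - 1) (ψ : R →+* ZMod q)
    (hnb : ¬ W4 m q ((q - 1) / s)) (x b c : R) (hx0 : x ≠ 0)
    (hco : IsCoprime c b) (hx2 : IsCoprime x 2)
    (heq : x ^ s + b ^ (2 * (2 * m + 1)) = c ^ (2 * (2 * m + 1))) :
    (IsCoprime ((2 * m + 1 : ℕ) : R) x → ψ (b * c) = 0) ∧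
    (Prime ((2 * m + 1 : ℕ) : R) → ((2 * m + 1 : ℕ) : R) ∣ x → False) := by
  have hF1 : Fact q.Prime := ⟨hq⟩
  have hpodd : Odd (2 * m + 1) := ⟨m, rfl⟩
  obtain ⟨P, hP⟩ : ∃ P : R, P = c ^ (2 * m + 1) - b ^ (2 * m + 1) := ⟨_, rfl⟩
  obtain ⟨Q, hQ⟩ : ∃ Q : R, Q = c ^ (2 * m + 1) + b ^ (2 * m + 1) := ⟨_, rfl⟩
  have hPQ : P * Q = x ^ s := by
    have e1 : c ^ (2 * (2 * m + 1)) = (c ^ (2 * m + 1)) ^ 2 := by ring
    have e2 : b ^ (2 * (2 * m + 1)) = (b ^ (2 * m + 1)) ^ 2 := by ring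
    rw [e1, e2] at heq
    rw [hP, hQ]
    linear_combination -heq
  have hPQ2 : IsCoprime (P * Q) 2 := by
    rw [hPQ]
    exact hx2.pow_left
  obtain ⟨H, hH⟩ : c - b ∣ P := by
    rw [hP]
    exact sub_dvd_pow_sub_pow _ _ _
  obtain ⟨K, hK⟩ : c + b ∣ Q := by
    rw [hQ]
    exact Odd.add_dvd_pow_add_pow _ _ hpodd
  have hP2 : IsCoprime P 2 := hPQ2.of_mul_left_left
  have hU2 : IsCoprime (c - b) 2 := by
    rw [hH] at hP2
    exact hP2.of_mul_left_left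
  have huv : IsCoprime (c - b) (c + b) := cop2 hco hU2
  have hcopPQ : IsCoprime P Q := by
    have := cop2 (C := c ^ (2 * m + 1)) (B := b ^ (2 * m + 1)) hco.pow (by rw [← hP]; exact hP2)
    rwa [← hP, ← hQ] at this
  have hxs0 : x ^ s ≠ 0 := pow_ne_zero _ hx0
  have hU0 : c - b ≠ 0 := by
    intro h0
    rw [← hPQ, hH, h0] at hxs0
    exact hxs0 (by ring)
  have hV0 : c + b ≠ 0 := by
    intro h0
    rw [← hPQ, hK, h0] at hxs0
    exact hxs0 (by ring)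
  have g1 := pow_FG (δ := (1 : R)) (ω := 1) (by norm_num) (c - b) (c + b) m
  have g2 := pow_FG' (δ := (1 : R)) (ω := 1) (by norm_num) (c - b) (c + b) m
  have e1 : c - b + 1 * (c + b) = 2 * c := by ring
  have e2 : c - b - 1 * (c + b) = 2 * -b := by ring
  rw [e1, mul_pow] at g1
  rw [e2, mul_pow, hpodd.neg_pow] at g2
  have e4 : (2 : R) ^ (2 * m + 1) = 2 * 4 ^ m := by
    rw [pow_succ, pow_mul]
    norm_num
    ring
  rw [e4] at g1 g2
  have hFA : Fh 1 (c - b) (c + b) m = 4 ^ m * H := by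
    apply mul_left_cancel₀ (mul_ne_zero h20 hU0)
    calc 2 * (c - b) * Fh 1 (c - b) (c + b) m = 2 * 4 ^ m * P := by
          rw [hP]
          linear_combination -g1 - g2
      _ = _ := by rw [hH]; ring
  have hGA : Gh 1 (c - b) (c + b) m = 4 ^ m * K := by
    apply mul_left_cancel₀ (mul_ne_zero h20 hV0)
    calc 2 * (c + b) * Gh 1 (c - b) (c + b) m = 2 * 4 ^ m * Q := by
          rw [hQ]
          linear_combination -g1 + g2
      _ = _ := by rw [hK]; ring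
  have eκ : ((2 ^ (2 * m) : ℕ) : R) = 4 ^ m := by
    push_cast
    rw [pow_mul]
    norm_num
  have hκ0 : ((2 ^ (2 * m) : ℕ) : R) ≠ 0 := by
    push_cast
    exact pow_ne_zero _ h20
  obtain ⟨α, hα⟩ := hpows _ _ x hx0 hcopPQ hPQ
  obtain ⟨β, hβ⟩ := hpows _ _ x hx0 hcopPQ.symm (by rw [mul_comm]; exact hPQ)
  have hα0 : α ≠ 0 := by
    rintro rfl
    rw [zero_pow hs0] at hα
    rw [← hPQ, hα, zero_mul] at hxs0
    exact hxs0 rfl
  have hβ0 : β ≠ 0 := by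
    rintro rfl
    rw [zero_pow hs0] at hβ
    rw [← hPQ, hβ, mul_zero] at hxs0
    exact hxs0 rfl
  obtain ⟨c1, c2, c3⟩ := cfgR m (2 ^ (2 * m)) hm (odd_not_dvd_two_pow m (2 * m) hm) hκ0 hp0 h2p s q
    hs0 hpows hq hqm hsq ψ (c - b) (c + b) H K α β hα0 hβ0 huv (by rw [eκ]; exact hFA)
    (by rw [eκ]; exact hGA) (by rw [← hH, hα]) (by rw [← hK, hβ])
  constructor
  · intro hpx
    by_contra hbc
    have h1 : IsCoprime ((2 * m + 1 : ℕ) : R) (α ^ s * β ^ s) := by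
      rw [← hα, ← hβ, hPQ]
      exact hpx.pow_right
    have hα1 : IsCoprime ((2 * m + 1 : ℕ) : R) α :=
      (IsCoprime.pow_right_iff (Nat.pos_of_ne_zero hs0)).mp h1.of_mul_right_left
    have hβ1 : IsCoprime ((2 * m + 1 : ℕ) : R) β :=
      (IsCoprime.pow_right_iff (Nat.pos_of_ne_zero hs0)).mp h1.of_mul_right_right
    refine hnb ⟨hm, Or.inl (c1 hα1 hβ1 (X ^ 2 - 1) ?_)⟩
    intro t ht h0
    apply hbc
    rw [map_sub, map_pow, aeval_X, map_one, sub_eq_zero] at h0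
    have h3 : (ψ (c + b)) ^ 2 = (ψ (c - b)) ^ 2 := by
      rw [ht, mul_pow, h0, mul_one]
    have h4 : (4 : ZMod q) * ψ (b * c) = 0 := by
      have e : (4 : R) * (b * c) = (c + b) ^ 2 - (c - b) ^ 2 := by ring
      have e5 := congrArg ψ e
      rw [map_mul, map_ofNat, map_sub, map_pow, map_pow, h3, sub_self] at e5
      exact e5
    have h5 : (4 : ZMod q) ≠ 0 := by
      have hm1 := hm.1
      have := natCast_ne_zero_of_lt (q := q) (k := 4) (by norm_num) (by omega) (ZMod q)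
      exact_mod_cast this
    exact (mul_eq_zero.mp h4).resolve_left h5
  · intro hpp hpx
    have h1 : ((2 * m + 1 : ℕ) : R) ∣ α ^ s * β ^ s := by
      rw [← hα, ← hβ, hPQ]
      exact dvd_pow hpx hs0
    rcases hpp.dvd_or_dvd h1 with h | h
    · exact hnb ⟨hm, Or.inr (Or.inl (c2 hpp (hpp.dvd_of_dvd_pow h) False (fun h => h.elim)))⟩
    · exact hnb ⟨hm, Or.inr (Or.inr (c3 hpp (hpp.dvd_of_dvd_pow h) False (fun h => h.elim)))⟩

end Pool.Agent.H326.KQ
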