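import Mathlib

/-!
Facts on quadratic fields.
-/

set_option autoImplicit false

namespace Pool.Agent.H326.KQ

open NumberField Polynomial

variable {K : Type} [Field K] [NumberField K]

/-- no `p`-torsion in quadratic fields for `p ≥ 5` -/
lemma no_torsion (hK : Module.finrank ℚ K = 2) {p : ℕ} (hp : p.Prime) (h5 : 5 ≤ p) {x : K}
    (h : x ^ p = 1) : x = 1 := by
  by_contra hne
  have hprim : IsPrimitiveRoot x p := by
    have h1 := IsPrimitiveRoot.orderOf x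
    have : Fact p.Prime := ⟨hp⟩
    have h2 : orderOf x = p := orderOf_eq_prime h hne
    rwa [h2] at h1
  have h1 : (minpoly ℚ x).natDegree = p.totient := by
    rw [← Polynomial.cyclotomic_eq_minpoly_rat hprim hp.pos, Polynomial.natDegree_cyclotomic]
  have h2 : (minpoly ℚ x).natDegree ≤ Module.finrank ℚ K := minpoly.natDegree_le x
  rw [h1, Nat.totient_prime hp, hK] at h2
  omega

lemma unit_abs (hK : Module.finrank ℚ K = 2) (hC : IsTotallyComplex K) (ε : (𝓞 K)ˣ)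
    (φ : K →+* ℂ) : ‖φ ((ε : 𝓞 K) : K)‖ = 1 := by
  classical
  have h1 : InfinitePlace.nrRealPlaces K = 0 := IsTotallyComplex.nrRealPlaces_eq_zero K
  have h2 : Module.finrank ℚ K = 2 * InfinitePlace.nrComplexPlaces K := IsTotallyComplex.finrank K
  have h3 := InfinitePlace.card_eq_nrRealPlaces_add_nrComplexPlaces (K := K)
  have h4 : Fintype.card (InfinitePlace K) = 1 := by omega
  obtain ⟨w, hw⟩ := Fintype.card_eq_one_iff.mp h4
  have h5 := InfinitePlace.prod_eq_abs_norm (K := K) ((ε : 𝓞 K) : K)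
  have h6 : (Finset.univ : Finset (InfinitePlace K)) = {w} := by
    ext v
    simp [hw v]
  have h3' : |Algebra.norm ℚ ((ε : 𝓞 K) : K)| = 1 := by
    have h := NumberField.isUnit_iff_norm.1 ε.isUnit
    rw [← h]
    rfl
  rw [h6, Finset.prod_singleton, h3'] at h5
  have h7 : w.mult = 2 := IsTotallyComplex.mult_eq w
  rw [h7, Rat.cast_one] at h5
  have h8 : InfinitePlace.mk φ = w := hw _
  have h9 : InfinitePlace.mk φ ((ε : 𝓞 K) : K) = ‖φ ((ε : 𝓞 K) : K)‖ := InfinitePlace.apply φ _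
  rw [← h9, h8]
  have h10 : 0 ≤ w ((ε : 𝓞 K) : K) := apply_nonneg w _
  nlinarith

/-- units of imaginary quadratic fields are `p`-th powers -/
lemma unit_root (hK : Module.finrank ℚ K = 2) (hC : IsTotallyComplex K) {p : ℕ} (hp : p.Prime)
    (h5 : 5 ≤ p) (ε : (𝓞 K)ˣ) : ∃ η : (𝓞 K)ˣ, ε = η ^ p := by
  obtain ⟨m, hm, hxm⟩ := NumberField.Embeddings.pow_eq_one_of_norm_eq_one K ℂ
    (RingOfIntegers.isIntegral_coe (ε : 𝓞 K)) (unit_abs hK hC ε)
  have hεm : ε ^ m = 1 := by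
    apply Units.ext
    apply RingOfIntegers.coe_injective
    push_cast
    exact hxm
  have hfin : IsOfFinOrder ε := isOfFinOrder_iff_pow_eq_one.2 ⟨m, hm, hεm⟩
  have hord := hfin.orderOf_pos
  have hco : Nat.Coprime p (orderOf ε) := by
    rw [Nat.Prime.coprime_iff_not_dvd hp]
    rintro ⟨c, hc⟩
    have hc0 : 0 < c := by
      rcases Nat.eq_zero_or_pos c with h4 | h4
      · rw [h4, mul_zero] at hc
        omega
      · exact h4
    have h4 : (ε ^ c) ^ p = 1 := by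
      rw [← pow_mul, mul_comm, ← hc, pow_orderOf_eq_one]
    have h4' : (((ε ^ c : (𝓞 K)ˣ) : 𝓞 K) : K) ^ p = 1 := by
      have := congrArg (fun u : (𝓞 K)ˣ => ((u : 𝓞 K) : K)) h4
      simpa using this
    have h5' := no_torsion hK hp h5 h4'
    have h5'' : ε ^ c = 1 := by
      apply Units.ext
      apply RingOfIntegers.coe_injective
      rw [Units.val_one, map_one]
      exact h5'
    have h6 := orderOf_dvd_of_pow_eq_one h5''
    have h7 := Nat.le_of_dvd hc0 h6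
    rw [hc] at h7
    have := hp.two_le
    nlinarith
  obtain ⟨y, hy⟩ := exists_pow_eq_self_of_coprime hco
  exact ⟨ε ^ y, by rw [← pow_mul, mul_comm, pow_mul]; exact hy.symm⟩

/-- coprime factors of `p`-th powers are `p`-th powers -/
lemma pow_of_mul (hK : Module.finrank ℚ K = 2) (hC : IsTotallyComplex K) {p : ℕ} (hp : p.Prime)
    (h5 : 5 ≤ p) (hh : ¬ p ∣ classNumber K) (a b c : 𝓞 K) (hc : c ≠ 0) (hab : IsCoprime a b)
    (h : a * b = c ^ p) : ∃ d, a = d ^ p := by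
  classical
  have hI : Ideal.span {a} * Ideal.span {b} = (Ideal.span {c}) ^ p := by
    rw [Ideal.span_singleton_mul_span_singleton, h, Ideal.span_singleton_pow]
  have hcop : IsCoprime (Ideal.span {a}) (Ideal.span {b}) := by
    rw [Ideal.isCoprime_span_singleton_iff]
    exact hab
  obtain ⟨J, hJ⟩ := exists_eq_pow_of_mul_eq_pow_of_coprime hcop hI
  have hJp : J.IsPrincipal := by
    apply Ideal.IsPrincipal.of_isPrincipal_pow_of_coprime (n := p)
    · exact (Nat.Prime.coprime_iff_not_dvd hp).2 hh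
    · rw [← hJ]
      exact ⟨a, rfl⟩
  obtain ⟨w, hw⟩ := hJp
  have hJw : J = Ideal.span {w} := hw
  rw [hJw, Ideal.span_singleton_pow, Ideal.span_singleton_eq_span_singleton] at hJ
  obtain ⟨u, hu⟩ := hJ.symm
  obtain ⟨η, hη⟩ := unit_root hK hC hp h5 u
  refine ⟨w * (η : 𝓞 K), ?_⟩
  rw [mul_pow, ← hu, hη]
  push_cast
  rfl

lemma rank_int (hK : Module.finrank ℚ K = 2) : Module.finrank ℤ (𝓞 K) = 2 := by
  rw [RingOfIntegers.rank, hK]

lemma norm_nat (hK : Module.finrank ℚ K = 2) (k : ℕ) :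
    Algebra.norm ℤ ((k : ℕ) : 𝓞 K) = (k : ℤ) ^ 2 := by
  rw [Algebra.norm_natCast, rank_int hK]

lemma not_dvd_two (hK : Module.finrank ℚ K = 2) {p : ℕ} (hp : 3 ≤ p) :
    ((p : ℕ) : 𝓞 K) ∣ 2 → False := by
  rintro ⟨r, hr⟩
  have h1 := congrArg (Algebra.norm ℤ) hr
  rw [map_mul, norm_nat hK] at h1
  have h2 := norm_nat hK 2
  rw [Nat.cast_ofNat] at h2
  rw [h2] at h1
  have h3 : ((p : ℤ) ^ 2) ∣ ((2 : ℕ) : ℤ) ^ 2 := Dvd.intro _ h1.symm
  have h4 := Int.le_of_dvd (by norm_num) h3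
  have h5 : (3 : ℤ) ≤ p := by exact_mod_cast hp
  push_cast at h4
  nlinarith

/-- the sixth power of a unit modulo two is one -/
lemma unit_mod_two (hK : Module.finrank ℚ K = 2) (u : (𝓞 K ⧸ Ideal.span {(2 : 𝓞 K)})ˣ) :
    u ^ 6 = 1 := by
  classical
  have h1 : Ideal.absNorm (Ideal.span {(2 : 𝓞 K)}) = 4 := by
    rw [Ideal.absNorm_span_singleton]
    have h2 := norm_nat hK 2
    rw [Nat.cast_ofNat] at h2
    rw [h2]
    rfl
  rw [Ideal.absNorm_apply, Submodule.cardQuot_apply] at h1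
  have hfin : Finite (𝓞 K ⧸ Ideal.span {(2 : 𝓞 K)}) := Nat.finite_of_card_ne_zero (by rw [h1]; norm_num)
  have hne : Nontrivial (𝓞 K ⧸ Ideal.span {(2 : 𝓞 K)}) :=
    (Finite.one_lt_card_iff_nontrivial).mp (by rw [h1]; norm_num)
  have h3 : Nat.card (𝓞 K ⧸ Ideal.span {(2 : 𝓞 K)})ˣ < 4 := by
    rw [← h1]
    have hF1 := Fintype.ofFinite (𝓞 K ⧸ Ideal.span {(2 : 𝓞 K)})
    have hF2 := Fintype.ofFinite (𝓞 K ⧸ Ideal.span {(2 : 𝓞 K)})ˣ
    rw [Nat.card_eq_fintype_card, Nat.card_eq_fintype_card]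
    exact Fintype.card_lt_of_injective_not_surjective (fun u : (𝓞 K ⧸ Ideal.span {(2 : 𝓞 K)})ˣ => (u : 𝓞 K ⧸ Ideal.span {(2 : 𝓞 K)}))
      Units.val_injective (fun h => by
        obtain ⟨u, hu⟩ := h 0
        exact u.ne_zero hu)
  have h4 : u ^ Nat.card (𝓞 K ⧸ Ideal.span {(2 : 𝓞 K)})ˣ = 1 := pow_card_eq_one'
  have h5 : 0 < Nat.card (𝓞 K ⧸ Ideal.span {(2 : 𝓞 K)})ˣ := Nat.card_pos
  obtain ⟨j, hj⟩ : Nat.card (𝓞 K ⧸ Ideal.span {(2 : 𝓞 K)})ˣ ∣ 6 := by
    interval_cases Nat.card (𝓞 K ⧸ Ideal.span {(2 : 𝓞 K)})ˣ <;> norm_num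
  rw [hj, pow_mul, h4, one_pow]

lemma h2d (hK : Module.finrank ℚ K = 2) {p : ℕ} (hp : p.Prime) (h5 : 5 ≤ p) (a b : 𝓞 K)
    (ha : IsCoprime a 2) (hb : IsCoprime b 2) (h : 2 ∣ a ^ p - b ^ p) : 2 ∣ a - b := by
  have hunit : ∀ w : 𝓞 K, IsCoprime w 2 → IsUnit (Ideal.Quotient.mk (Ideal.span {(2 : 𝓞 K)}) w) := by
    rintro w ⟨r, t, hrt⟩
    have h1 := congrArg (Ideal.Quotient.mk (Ideal.span {(2 : 𝓞 K)})) hrt
    rw [map_add, map_mul, map_mul, map_one] at h1
    have h2 : Ideal.Quotient.mk (Ideal.span {(2 : 𝓞 K)}) 2 = 0 :=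
      Ideal.Quotient.eq_zero_iff_mem.mpr (Ideal.mem_span_singleton_self 2)
    rw [h2, mul_zero, add_zero] at h1
    exact IsUnit.of_mul_eq_one _ (by rw [mul_comm]; exact h1)
  obtain ⟨ua, hua⟩ := hunit a ha
  obtain ⟨ub, hub⟩ := hunit b hb
  have h1 : ua ^ p = ub ^ p := by
    apply Units.ext
    push_cast
    rw [hua, hub, ← map_pow, ← map_pow, Ideal.Quotient.eq, Ideal.mem_span_singleton]
    exact h
  have h6 : ua = ub := by
    have hc : Nat.Coprime p 6 := by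
      rw [Nat.Prime.coprime_iff_not_dvd hp]
      intro h2
      have h3 := Nat.le_of_dvd (by norm_num) h2
      interval_cases p
      · omega
      · exact absurd hp (by norm_num)
    have h2 : (ua / ub) ^ p = 1 := by rw [div_pow, h1, div_self']
    have h3 : (ua / ub) ^ 6 = 1 := unit_mod_two hK _
    have h4 := orderOf_dvd_of_pow_eq_one h2
    have h5 := orderOf_dvd_of_pow_eq_one h3
    have h7 := Nat.dvd_gcd h4 h5
    rw [hc] at h7
    have h8 : orderOf (ua / ub) = 1 := Nat.dvd_one.mp h7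
    rw [orderOf_eq_one_iff] at h8
    exact div_eq_one.mp h8
  rw [← Ideal.mem_span_singleton, ← Ideal.Quotient.eq, ← hua, ← hub, h6]

/-- every integer of a quadratic field satisfies a quadratic equation -/
lemma quad (hK : Module.finrank ℚ K = 2) (β : 𝓞 K) : ∃ t D : ℤ, (2 * β - t) ^ 2 = (D : 𝓞 K) := by
  obtain ⟨P, hP⟩ : ∃ P : ℤ[X], P = (Algebra.lmul ℤ (𝓞 K) β).charpoly := ⟨_, rfl⟩
  have hmon : P.Monic := by rw [hP]; exact LinearMap.charpoly_monic _
  have hdeg : P.natDegree = 2 := by rw [hP, LinearMap.charpoly_natDegree, rank_int hK]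
  have h1 : aeval β P = 0 := by
    have h2 := LinearMap.aeval_self_charpoly (Algebra.lmul ℤ (𝓞 K) β)
    rw [← hP] at h2
    have h3 : aeval (Algebra.lmul ℤ (𝓞 K) β) P = Algebra.lmul ℤ (𝓞 K) (aeval β P) :=
      aeval_algHom_apply (Algebra.lmul ℤ (𝓞 K)) β P
    rw [h3] at h2
    have h4 := congrArg (fun f : (𝓞 K) →ₗ[ℤ] (𝓞 K) => f 1) h2
    simpa using h4
  rw [aeval_eq_sum_range' (n := 3) (by omega), Finset.sum_range_succ, Finset.sum_range_succ,
    Finset.sum_range_one] at h1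
  have h2 : P.coeff 2 = 1 := by
    have := hmon.coeff_natDegree
    rwa [hdeg] at this
  rw [h2, one_smul, pow_zero, pow_one, zsmul_eq_mul, zsmul_eq_mul, mul_one] at h1
  refine ⟨-P.coeff 1, (P.coeff 1) ^ 2 - 4 * P.coeff 0, ?_⟩
  push_cast
  linear_combination 4 * h1

/-- `D` is a square modulo `q` if `q = 1` modulo `4|D|` -/
lemma isSquare_mod (D : ℤ) (hD : D ≠ 0) (q : ℕ) (hq : q.Prime) (h : 4 * D.natAbs ∣ q - 1) :
    IsSquare (D : ZMod q) := by
  have hF : Fact q.Prime := ⟨hq⟩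
  have hD1 : 1 ≤ D.natAbs := Int.natAbs_pos.mpr hD
  obtain ⟨k, hk⟩ := h
  have hq2 := hq.two_le
  have hk' : q = 4 * D.natAbs * k + 1 := by omega
  have hodd : Odd q := ⟨2 * D.natAbs * k, by rw [hk']; ring⟩
  have hmod : q % (4 * D.natAbs) = 1 := by
    rw [hk', Nat.mul_add_mod]
    exact Nat.mod_eq_of_lt (by omega)
  have h1 : jacobiSym D q = 1 := by
    rw [jacobiSym.mod_right D hodd, hmod, jacobiSym.one_right]
  rw [← jacobiSym.legendreSym.to_jacobiSym] at h1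
  have h2 : (D : ZMod q) ≠ 0 := by
    intro h0
    rw [(legendreSym.eq_zero_iff q D).mpr h0] at h1
    exact zero_ne_one h1
  exact (legendreSym.eq_one_iff q h2).mp h1

/-- primes `q = 1` modulo a suitable `f` split completely -/
theorem exists_hom (hK : Module.finrank ℚ K = 2) : ∃ f : ℕ, 1 ≤ f ∧ ∀ q : ℕ, q.Prime →
    f ∣ q - 1 → ∀ P : Ideal (𝓞 K), P.IsPrime → (q : 𝓞 K) ∈ P →
      ∃ ψ : 𝓞 K →+* ZMod q, RingHom.ker ψ = P := by
  classical
  obtain ⟨S, hS⟩ := (Module.Finite.fg_top : (⊤ : Submodule ℤ (𝓞 K)).FG)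
  choose t D htD using quad hK
  refine ⟨∏ β ∈ S, (4 * max (D β).natAbs 1), ?_, ?_⟩
  · apply Nat.one_le_iff_ne_zero.mpr
    apply Finset.prod_ne_zero_iff.mpr
    intro β _
    have := le_max_right (D β).natAbs 1
    omega
  intro q hq hf P hP hqP
  have hF : Fact q.Prime := ⟨hq⟩
  have hnt : Nontrivial (𝓞 K ⧸ P) := Ideal.Quotient.nontrivial_iff.mpr hP.ne_top
  have hdom : IsDomain (𝓞 K ⧸ P) := Ideal.Quotient.isDomain P
  have hqz : ((q : ℕ) : 𝓞 K ⧸ P) = 0 := by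
    have := Ideal.Quotient.eq_zero_iff_mem.mpr hqP
    rwa [map_natCast] at this
  have hchar : CharP (𝓞 K ⧸ P) q := by
    obtain ⟨r, hr⟩ := CharP.exists (𝓞 K ⧸ P)
    have h1 : r ∣ q := (CharP.cast_eq_zero_iff (𝓞 K ⧸ P) r q).mp hqz
    rcases (Nat.dvd_prime hq).mp h1 with h2 | h2
    · exfalso
      rw [h2] at hr
      have h3 : ((1 : ℕ) : 𝓞 K ⧸ P) = 0 := (CharP.cast_eq_zero_iff (𝓞 K ⧸ P) 1 1).mpr (dvd_refl 1)
      rw [Nat.cast_one] at h3
      exact one_ne_zero h3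
    · rw [h2] at hr
      exact hr
  obtain ⟨g, hg⟩ : ∃ g : ZMod q →+* (𝓞 K ⧸ P), g = ZMod.castHom (dvd_refl q) (𝓞 K ⧸ P) := ⟨_, rfl⟩
  have hint : ∀ k : ℤ, g (k : ZMod q) = ((k : ℤ) : 𝓞 K ⧸ P) := fun k => map_intCast g k
  have hgen : ∀ β ∈ S, ∃ z : ZMod q, g z = Ideal.Quotient.mk P β := by
    intro β hβ
    have h1 : 4 * max (D β).natAbs 1 ∣ q - 1 := (Finset.dvd_prod_of_mem _ hβ).trans hf
    have hq2 := hq.two_le
    have hqne : q ≠ 2 := by
      rintro rfl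
      have := Nat.le_of_dvd (by norm_num) h1
      have := le_max_right (D β).natAbs 1
      omega
    have h2 : (2 : ZMod q) ≠ 0 := by
      intro h0
      have h3 : ((2 : ℕ) : ZMod q) = 0 := by exact_mod_cast h0
      rw [ZMod.natCast_eq_zero_iff] at h3
      have := Nat.le_of_dvd (by norm_num) h3
      omega
    have h2' : (2 : 𝓞 K ⧸ P) ≠ 0 := by
      intro h0
      apply h2
      apply g.injective
      rw [map_ofNat, h0, map_zero]
    obtain ⟨δ, hδ⟩ : ∃ δ : ZMod q, ((D β : ℤ) : ZMod q) = δ * δ := by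
      by_cases hD : D β = 0
      · exact ⟨0, by rw [hD]; simp⟩
      · have h3 : 4 * (D β).natAbs ∣ q - 1 := by
          have h4 : max (D β).natAbs 1 = (D β).natAbs :=
            max_eq_left (Int.natAbs_pos.mpr hD)
          rwa [h4] at h1
        exact isSquare_mod (D β) hD q hq h3
    have h3 : (2 * Ideal.Quotient.mk P β - (t β : 𝓞 K ⧸ P)) ^ 2 = (g δ) ^ 2 := by
      have h4 := congrArg (Ideal.Quotient.mk P) (htD β)
      rw [map_pow, map_sub, map_mul, map_ofNat, map_intCast, map_intCast] at h4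
      rw [h4, ← hint, hδ, map_mul, pow_two]
    rcases sq_eq_sq_iff_eq_or_eq_neg.mp h3 with h4 | h4
    · refine ⟨(t β + δ) / 2, ?_⟩
      apply mul_left_cancel₀ h2'
      have e : (2 : 𝓞 K ⧸ P) * g ((t β + δ) / 2) = g (2 * ((t β + δ) / 2)) := by
        rw [map_mul, map_ofNat]
      rw [e, mul_div_cancel₀ _ h2, map_add, hint]
      linear_combination -h4
    · refine ⟨(t β - δ) / 2, ?_⟩
      apply mul_left_cancel₀ h2'
      have e : (2 : 𝓞 K ⧸ P) * g ((t β - δ) / 2) = g (2 * ((t β - δ) / 2)) := by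
        rw [map_mul, map_ofNat]
      rw [e, mul_div_cancel₀ _ h2, map_sub, hint]
      linear_combination -h4
  have hall : ∀ β : 𝓞 K, ∃ z : ZMod q, g z = Ideal.Quotient.mk P β := by
    intro β
    have hβ : β ∈ Submodule.span ℤ (S : Set (𝓞 K)) := by rw [hS]; trivial
    induction hβ using Submodule.span_induction with
    | mem x hx => exact hgen x hx
    | zero => exact ⟨0, by rw [map_zero, map_zero]⟩
    | add x y _ _ hx hy =>
      obtain ⟨a, ha⟩ := hx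
      obtain ⟨b, hb⟩ := hy
      exact ⟨a + b, by rw [map_add, map_add, ha, hb]⟩
    | smul k x _ hx =>
      obtain ⟨a, ha⟩ := hx
      exact ⟨k * a, by rw [zsmul_eq_mul, map_mul, map_mul, ha, hint, map_intCast]⟩
  have hsurj : Function.Surjective g := by
    intro y
    obtain ⟨β, rfl⟩ := Ideal.Quotient.mk_surjective y
    exact hall β
  obtain ⟨e, he⟩ : ∃ e : ZMod q ≃+* (𝓞 K ⧸ P), e = RingEquiv.ofBijective g ⟨g.injective, hsurj⟩ :=
    ⟨_, rfl⟩
  refine ⟨(e.symm : (𝓞 K ⧸ P) →+* ZMod q).comp (Ideal.Quotient.mk P), ?_⟩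
  ext x
  rw [RingHom.mem_ker, RingHom.comp_apply, RingHom.coe_coe, EmbeddingLike.map_eq_zero_iff,
    Ideal.Quotient.eq_zero_iff_mem]

/-- an inert prime is coprime to everything it does not divide -/
lemma cop_of_prime {p : ℕ} (hp0 : ((p : ℕ) : 𝓞 K) ≠ 0) (hp : Prime ((p : ℕ) : 𝓞 K)) (w : 𝓞 K)
    (h : ¬ ((p : ℕ) : 𝓞 K) ∣ w) : IsCoprime ((p : ℕ) : 𝓞 K) w := by
  have h1 : (Ideal.span {((p : ℕ) : 𝓞 K)}).IsPrime := (Ideal.span_singleton_prime hp0).mpr hp
  have h2 : (Ideal.span {((p : ℕ) : 𝓞 K)}).IsMaximal :=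
    h1.isMaximal (by rw [Ne, Ideal.span_singleton_eq_bot]; exact hp0)
  obtain ⟨y, i, hi, hyi⟩ := h2.exists_inv (x := w) (fun h3 => h (Ideal.mem_span_singleton.mp h3))
  obtain ⟨k, hk⟩ := Ideal.mem_span_singleton.mp hi
  exact ⟨k, y, by rw [mul_comm k, ← hk]; rw [← hyi]; ring⟩
end Pool.Agent.H326.KQ
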