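import Mathlib

/-!
Divisibility by unramified primes, and the size of elements divisible by many primes.
-/

set_option autoImplicit false

namespace Pool.Agent.H326.KQ

open NumberField UniqueFactorizationMonoid

variable {K : Type} [Field K] [NumberField K]

/-- an element of all the prime ideals above an unramified prime is divisible by it -/
lemma dvd_of_mem {q : ℕ} (hq : q.Prime) (hd : ¬ (q : ℤ) ∣ discr K) (x : 𝓞 K)
    (h : ∀ P : Ideal (𝓞 K), P.IsPrime → (q : 𝓞 K) ∈ P → x ∈ P) : (q : 𝓞 K) ∣ x := by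
  classical
  have hq0 : (q : 𝓞 K) ≠ 0 := by exact_mod_cast hq.ne_zero
  have hI0 : Ideal.span {(q : 𝓞 K)} ≠ ⊥ := by rwa [Ne, Ideal.span_singleton_eq_bot]
  have hun := (NumberField.not_dvd_discr_iff_forall_mem K (𝓞 K)
    (Nat.prime_iff_prime_int.mp hq)).mp hd
  have hmap : (Ideal.span {(q : ℤ)}).map (algebraMap ℤ (𝓞 K)) = Ideal.span {(q : 𝓞 K)} := by
    rw [Ideal.map_span, Set.image_singleton, eq_intCast, Int.cast_natCast]
  have hsq : Squarefree (Ideal.span {(q : 𝓞 K)}) := by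
    rw [UniqueFactorizationMonoid.squarefree_iff_nodup_normalizedFactors hI0,
      Multiset.nodup_iff_count_le_one]
    intro P
    by_cases hP : P ∈ normalizedFactors (Ideal.span {(q : 𝓞 K)})
    · have hPp : Prime P := prime_of_normalized_factor P hP
      have hPP : P.IsPrime := Ideal.isPrime_of_prime hPp
      have hqP : (q : 𝓞 K) ∈ P := Ideal.dvd_span_singleton.mp (dvd_of_mem_normalizedFactors hP)
      have hu := hun P hPP (by exact_mod_cast hqP)
      have hlo : P.LiesOver (Ideal.span {(q : ℤ)}) :=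
        (Ideal.liesOver_span_iff hPP.ne_top (Nat.prime_iff_prime_int.mp hq)).mpr
          (by exact_mod_cast hqP)
      have h1 : P.ramificationIdx ℤ = 1 := Ideal.ramificationIdx_eq_one_of_isUnramifiedAt
      have h2 := Ideal.IsDedekindDomain.ramificationIdx_eq_normalizedFactors_count
        (Ideal.span {(q : ℤ)}) P (by rw [hmap]; exact hI0)
      rw [hmap, h1] at h2
      exact h2.symm.le
    · rw [Multiset.count_eq_zero_of_notMem hP]
      exact zero_le_one
  have hrad := hsq.isRadical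
  have h1 : x ∈ (Ideal.span {(q : 𝓞 K)}).radical := by
    rw [Ideal.radical_eq_sInf, Submodule.mem_sInf]
    rintro P ⟨hP1, hP2⟩
    exact h P hP2 (hP1 (Ideal.mem_span_singleton_self _))
  obtain ⟨n, hn⟩ := h1
  have h2 := hrad n (Ideal.span {x}) (by
    rw [Ideal.span_singleton_pow, Ideal.dvd_span_singleton]
    exact hn)
  rw [Ideal.dvd_span_singleton, Ideal.mem_span_singleton] at h2
  exact h2

/-- the norm of a nonzero element divisible by many primes is large -/
lemma norm_big (hK : Module.finrank ℚ K = 2) (G : Finset ℕ) (x : 𝓞 K) (hx : x ≠ 0)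
    (h : ∀ q ∈ G, q.Prime ∧ 3 ≤ q ∧ (q : 𝓞 K) ∣ x) :
    Real.exp (2 * (G.card : ℝ)) ≤ ((Algebra.norm ℤ x).natAbs : ℝ) := by
  classical
  have h0 : ∀ G' : Finset ℕ, G' ⊆ G → ((∏ q ∈ G', q : ℕ) : 𝓞 K) ∣ x := by
    intro G' hG'
    rw [Nat.cast_prod]
    apply Finset.prod_dvd_of_coprime
    · intro a ha b hb hab
      have h1 : Nat.Coprime a b := (Nat.coprime_primes (h a (hG' ha)).1 (h b (hG' hb)).1).mpr hab
      exact h1.cast
    · intro q hq
      exact (h q (hG' hq)).2.2
  obtain ⟨y, hy⟩ := h0 G subset_rfl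
  have h1 := congrArg (Algebra.norm ℤ) hy
  rw [map_mul, Algebra.norm_natCast, RingOfIntegers.rank, hK] at h1
  have h2 := congrArg Int.natAbs h1
  rw [Int.natAbs_mul, Int.natAbs_pow, Int.natAbs_natCast] at h2
  have h3 : (Algebra.norm ℤ x).natAbs ≠ 0 := by
    rw [Int.natAbs_ne_zero]
    exact Algebra.norm_ne_zero_iff.mpr hx
  have h4 : (∏ q ∈ G, q) ^ 2 ≤ (Algebra.norm ℤ x).natAbs :=
    Nat.le_of_dvd (Nat.pos_of_ne_zero h3) (Dvd.intro _ h2.symm)
  have h5 : 3 ^ G.card ≤ ∏ q ∈ G, q := by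
    rw [← Finset.prod_const]
    exact Finset.prod_le_prod (fun _ _ => by norm_num) (fun q hq => (h q hq).2.1)
  have h6 : (3 ^ G.card) ^ 2 ≤ (Algebra.norm ℤ x).natAbs := (Nat.pow_le_pow_left h5 2).trans h4
  have h7 : (((3 ^ G.card) ^ 2 : ℕ) : ℝ) ≤ ((Algebra.norm ℤ x).natAbs : ℝ) := by exact_mod_cast h6
  refine le_trans ?_ h7
  have h8 : Real.exp (2 * (G.card : ℝ)) = ((Real.exp 1) ^ G.card) ^ 2 := by
    rw [Real.exp_one_pow, ← Real.exp_nat_mul]
    norm_num
  rw [h8]
  push_cast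
  apply pow_le_pow_left₀ (by positivity)
  apply pow_le_pow_left₀ (Real.exp_pos _).le
  have := Real.exp_one_lt_d9
  linarith

end Pool.Agent.H326.KQ
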