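import Pool.Agent.H573.AHB.UnJ

/-!
The bad auxiliary primes for the Fermat equation with two square terms.
-/

set_option autoImplicit false

namespace Pool.Agent.H326.KQ

open Polynomial Pool.Agent.H573.AHB

/-- three elements of a progression are `n`-th roots of unity modulo `q` -/
def T1 (q n : ℕ) : Prop :=
  ∃ c : ZMod q, c ^ n = 1 ∧ (c + 1) ^ n = 1 ∧ (c - 1) ^ n = 1

def T2 (q n : ℕ) : Prop :=
  ∃ c : ZMod q, c ^ n = 1 ∧ (c + 1) ^ n = 2 ^ n ∧ (2 * (c - 1)) ^ n = 1

lemma norm_one_of_pow {z w : ℂ} {N : ℕ} (hN : 1 ≤ N) (h : z ^ N = w ^ N) : ‖z‖ = ‖w‖ := by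
  have h1 := congrArg (fun t : ℂ => ‖t‖) h
  simp only [norm_pow] at h1
  exact (pow_left_inj₀ (norm_nonneg _) (norm_nonneg _) (by omega)).mp h1

lemma para (z : ℂ) : ‖z + 1‖ ^ 2 + ‖z - 1‖ ^ 2 = 2 * ‖z‖ ^ 2 + 2 := by
  rw [Complex.sq_norm, Complex.sq_norm, Complex.sq_norm, Complex.normSq_apply,
    Complex.normSq_apply, Complex.normSq_apply]
  simp only [Complex.add_re, Complex.add_im, Complex.sub_re, Complex.sub_im, Complex.one_re,
    Complex.one_im]
  ring

noncomputable def f1 : Fin 3 → ℤ[X] := ![X, X + 1, X - 1]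
noncomputable def f2 : Fin 3 → ℤ[X] := ![X, X + 1, 2 * (X - 1)]
def c1 : Fin 3 → ℤ := ![1, 1, 1]
def c2 : Fin 3 → ℤ := ![1, 2, 1]

lemma fin3' (i : Fin 3) : i = 0 ∨ i = 1 ∨ i = 2 := by
  fin_cases i <;> simp

section
variable {A : Type*} [CommRing A] (t : A)

lemma f1_0 : aeval t (f1 0) = t := by simp [f1]
lemma f1_1 : aeval t (f1 1) = t + 1 := by simp [f1]
lemma f1_2 : aeval t (f1 2) = t - 1 := by simp [f1]
lemma f2_0 : aeval t (f2 0) = t := by simp [f2]
lemma f2_1 : aeval t (f2 1) = t + 1 := by simp [f2]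
lemma f2_2 : aeval t (f2 2) = 2 * (t - 1) := by
  simp [f2]
  rw [map_ofNat]

end

lemma c1_eq (i : Fin 3) : c1 i = 1 := by
  rcases fin3' i with rfl | rfl | rfl <;> rfl

lemma two_ne (q : ℕ) (hq : q.Prime) (h : 2 < q) : (2 : ZMod q) ≠ 0 := by
  intro h0
  have h1 : ((2 : ℕ) : ZMod q) = 0 := by exact_mod_cast h0
  rw [ZMod.natCast_eq_zero_iff] at h1
  have := Nat.le_of_dvd (by norm_num) h1
  omega

lemma ucount_T1 : ∃ C : ℝ, 0 ≤ C ∧ UCount T1 C 2 := by
  have h := count_primesE (r := 3) (by norm_num) f1 c1 (fun i => by rw [c1_eq]; norm_num)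
    1 2 (by
      intro q hq _ i
      have hF : Fact q.Prime := ⟨hq⟩
      rw [c1_eq, Int.cast_one]
      exact one_ne_zero) (by
      intro q hF hq2 i
      have h2 := two_ne q hF.out hq2
      have h1 : (1 : ZMod q) ≠ 0 := one_ne_zero
      rcases fin3' i with rfl | rfl | rfl
      · refine ⟨ZMod q, inferInstance, inferInstance, 0, f1_0 0, ?_⟩
        intro j hj
        rcases fin3' j with rfl | rfl | rfl
        · exact absurd rfl hj
        · rw [f1_1, zero_add]; exact h1
        · rw [f1_2, zero_sub, neg_ne_zero]; exact h1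
      · refine ⟨ZMod q, inferInstance, inferInstance, -1, by rw [f1_1, neg_add_cancel], ?_⟩
        intro j hj
        rcases fin3' j with rfl | rfl | rfl
        · rw [f1_0, neg_ne_zero]; exact h1
        · exact absurd rfl hj
        · rw [f1_2]
          intro h
          apply h2
          linear_combination -h
      · refine ⟨ZMod q, inferInstance, inferInstance, 1, by rw [f1_2, sub_self], ?_⟩
        intro j hj
        rcases fin3' j with rfl | rfl | rfl
        · rw [f1_0]; exact h1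
        · rw [f1_1]
          intro h
          apply h2
          linear_combination h
        · exact absurd rfl hj) (by
      intro z _
      by_contra hcon
      push Not at hcon
      obtain ⟨N0, a0, b0⟩ := hcon 0
      obtain ⟨N1, a1, b1⟩ := hcon 1
      obtain ⟨N2, a2, b2⟩ := hcon 2
      rw [c1_eq, Int.cast_one] at b0 b1 b2
      rw [f1_0] at b0
      rw [f1_1] at b1
      rw [f1_2] at b2
      have k0 := norm_one_of_pow a0 b0
      have k1 := norm_one_of_pow a1 b1
      have k2 := norm_one_of_pow a2 b2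
      rw [norm_one] at k0 k1 k2
      have := para z
      rw [k0, k1, k2] at this
      norm_num at this)
  refine ⟨(2 ^ (3 + 1) * Ac f1 c1 * (((3 : ℕ) : ℝ) ^ (3 - 1)) / Real.log 2) * Ac f1 c1 *
    (2 * ((3 : ℕ) : ℝ) * 3 ^ (3 - 1)), ?_, ?_⟩
  rotate_left
  · intro K R hR hRK hKR Q hQ
    exact h K R hR hRK hKR Q (by
      intro q hq
      obtain ⟨g1, g2, n, g3, g4, _, t, ht0, ht1, ht2⟩ := hQ q hq
      have hF : Fact q.Prime := ⟨g1⟩
      refine ⟨g1, g2, t, n, g3, g4, by rw [map_one]; exact one_ne_zero, ?_⟩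
      intro i
      rw [c1_eq, Int.cast_one, one_pow]
      rcases fin3' i with rfl | rfl | rfl
      · rw [f1_0]; exact ht0
      · rw [f1_1]; exact ht1
      · rw [f1_2]; exact ht2)
  · have := Ac_nonneg f1 c1
    have := Real.log_pos (show (1 : ℝ) < 2 by norm_num)
    positivity

lemma ucount_T2 : ∃ C : ℝ, 0 ≤ C ∧ UCount T2 C 2 := by
  have h := count_primesE (r := 3) (by norm_num) f2 c2 (fun i => by
      rcases fin3' i with rfl | rfl | rfl <;> simp [c2])
    1 2 (by
      intro q hq hq2 i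
      have hF : Fact q.Prime := ⟨hq⟩
      have h2 := two_ne q hq hq2
      rcases fin3' i with rfl | rfl | rfl
      · simp [c2]
      · simpa [c2] using h2
      · simp [c2]) (by
      intro q hF hq2 i
      have h2 := two_ne q hF.out hq2
      have h1 : (1 : ZMod q) ≠ 0 := one_ne_zero
      rcases fin3' i with rfl | rfl | rfl
      · refine ⟨ZMod q, inferInstance, inferInstance, 0, f2_0 0, ?_⟩
        intro j hj
        rcases fin3' j with rfl | rfl | rfl
        · exact absurd rfl hj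
        · rw [f2_1, zero_add]; exact h1
        · rw [f2_2, zero_sub]; exact mul_ne_zero h2 (neg_ne_zero.mpr h1)
      · refine ⟨ZMod q, inferInstance, inferInstance, -1, by rw [f2_1, neg_add_cancel], ?_⟩
        intro j hj
        rcases fin3' j with rfl | rfl | rfl
        · rw [f2_0, neg_ne_zero]; exact h1
        · exact absurd rfl hj
        · rw [f2_2]
          intro h
          apply mul_ne_zero h2 h2
          linear_combination -h
      · refine ⟨ZMod q, inferInstance, inferInstance, 1, by rw [f2_2, sub_self, mul_zero], ?_⟩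
        intro j hj
        rcases fin3' j with rfl | rfl | rfl
        · rw [f2_0]; exact h1
        · rw [f2_1]
          intro h
          apply h2
          linear_combination h
        · exact absurd rfl hj) (by
      intro z _
      by_contra hcon
      push Not at hcon
      obtain ⟨N0, a0, b0⟩ := hcon 0
      obtain ⟨N1, a1, b1⟩ := hcon 1
      obtain ⟨N2, a2, b2⟩ := hcon 2
      have d0 : ((c2 0 : ℤ) : ℂ) = 1 := by simp [c2]
      have d1 : ((c2 1 : ℤ) : ℂ) = 2 := by simp [c2]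
      have d2 : ((c2 2 : ℤ) : ℂ) = 1 := by simp [c2]
      rw [d0, f2_0] at b0
      rw [d1, f2_1] at b1
      rw [d2, f2_2] at b2
      have k0 := norm_one_of_pow a0 b0
      have k1 := norm_one_of_pow a1 b1
      have k2 := norm_one_of_pow a2 b2
      rw [norm_mul] at k2
      have k3 : ‖(2 : ℂ)‖ = 2 := by simp
      rw [norm_one] at k0 k2
      rw [k3] at k1 k2
      have := para z
      rw [k0, k1] at this
      have k4 : ‖z - 1‖ = 1 / 2 := by linarith
      rw [k4] at this
      norm_num at this)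
  refine ⟨(2 ^ (3 + 1) * Ac f2 c2 * (((3 : ℕ) : ℝ) ^ (3 - 1)) / Real.log 2) * Ac f2 c2 *
    (2 * ((3 : ℕ) : ℝ) * 3 ^ (3 - 1)), ?_, ?_⟩
  rotate_left
  · intro K R hR hRK hKR Q hQ
    exact h K R hR hRK hKR Q (by
      intro q hq
      obtain ⟨g1, g2, n, g3, g4, _, t, ht0, ht1, ht2⟩ := hQ q hq
      have hF : Fact q.Prime := ⟨g1⟩
      refine ⟨g1, g2, t, n, g3, g4, by rw [map_one]; exact one_ne_zero, ?_⟩
      intro i
      rcases fin3' i with rfl | rfl | rfl
      · rw [f2_0, ht0]; simp [c2]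
      · rw [f2_1, ht1]; simp [c2]
      · rw [f2_2, ht2]; simp [c2])
  · have := Ac_nonneg f2 c2
    have := Real.log_pos (show (1 : ℝ) < 2 by norm_num)
    positivity

/-- `n^n = 1` modulo `q` -/
lemma ucount_nn : UCount (fun q n => (n : ZMod q) ^ n = 1) 3 2 := by
  classical
  intro K R hR hRK hKR Q hQ
  have hl2 : 0 < Real.log 2 := Real.log_pos (by norm_num)
  obtain ⟨QN, hQN⟩ : ∃ QN : ℕ → Finset ℕ, QN = fun n => Q.filter fun q =>
    Even n ∧ (n : ZMod q) ^ n = 1 := ⟨_, rfl⟩
  have hcov : Q ⊆ (Finset.Icc 1 K).biUnion QN := by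
    intro q hq
    obtain ⟨_, _, n, h1, h2, h3, h4⟩ := hQ q hq
    rw [Finset.mem_biUnion]
    refine ⟨n, Finset.mem_Icc.mpr ⟨h1, h2⟩, ?_⟩
    rw [hQN]
    exact Finset.mem_filter.mpr ⟨hq, h3, h4⟩
  have hlogK : Real.log K ≤ 3 * R * Real.log 2 := by
    have e1 : (K : ℝ) ≤ ((2 : ℝ) ^ R) ^ 3 := by
      have e2 : R + 1 ≤ 2 ^ R := Nat.lt_two_pow_self
      have e3 : K ≤ (2 ^ R) ^ 3 := hKR.le.trans (Nat.pow_le_pow_left e2 3)
      exact_mod_cast e3
    have hK0 : (0 : ℝ) < K := by
      have : 1 ≤ K := le_trans (Nat.one_le_pow _ _ hR) hRK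
      exact_mod_cast this
    have e4 := Real.log_le_log hK0 e1
    rw [Real.log_pow, Real.log_pow] at e4
    push_cast at e4
    linarith
  have hone : ∀ n ∈ Finset.Icc 1 K, ((QN n).card : ℝ) ≤ K * (3 * R) := by
    intro n hn
    rw [Finset.mem_Icc] at hn
    by_cases he : Even n
    · have hn2 : 2 ≤ n := by
        obtain ⟨k, hk⟩ := he
        omega
      have hlt : 1 < n ^ n := Nat.one_lt_pow (by omega) (by omega)
      have hr : ((n : ℤ) ^ n - 1) ≠ 0 := by
        have : (1 : ℤ) < (n : ℤ) ^ n := by exact_mod_cast hlt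
        omega
      have h1 := card_primes_dvd (QN n) (fun q hq => by
        rw [hQN] at hq
        exact (hQ q (Finset.mem_filter.mp hq).1).1) hr (by
        intro q hq
        rw [hQN] at hq
        have h2 := (Finset.mem_filter.mp hq).2.2
        rw [← ZMod.intCast_zmod_eq_zero_iff_dvd]
        push_cast
        rw [h2, sub_self])
      have h2 : |(((n : ℤ) ^ n - 1 : ℤ) : ℝ)| ≤ (n : ℝ) ^ n := by
        push_cast
        have e1 : (1 : ℝ) < (n : ℝ) ^ n := by exact_mod_cast hlt
        rw [abs_le]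
        constructor <;> linarith
      have h3 : Real.log |(((n : ℤ) ^ n - 1 : ℤ) : ℝ)| ≤ n * Real.log n := by
        rw [← Real.log_pow]
        apply Real.log_le_log _ h2
        rw [abs_pos]
        exact_mod_cast hr
      have hn0 : (0 : ℝ) < n := by exact_mod_cast (by omega : 0 < n)
      have hnK : (n : ℝ) ≤ K := by exact_mod_cast hn.2
      have h4 : Real.log n ≤ Real.log K := Real.log_le_log hn0 hnK
      have h5 : 0 ≤ Real.log n := Real.log_nonneg (by exact_mod_cast (by omega : 1 ≤ n))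
      have h6 : (n : ℝ) * Real.log n ≤ K * (3 * R * Real.log 2) := by
        apply mul_le_mul hnK (h4.trans hlogK) h5 (by linarith)
      have h7 : ((QN n).card : ℝ) * Real.log 2 ≤ (K * (3 * R)) * Real.log 2 := by
        calc ((QN n).card : ℝ) * Real.log 2 ≤ _ := h1
          _ ≤ (n : ℝ) * Real.log n := h3
          _ ≤ K * (3 * R * Real.log 2) := h6
          _ = _ := by ring
      exact le_of_mul_le_mul_right h7 hl2
    · have : QN n = ∅ := by
        rw [hQN, Finset.eq_empty_iff_forall_notMem]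
        intro q hq
        exact he (Finset.mem_filter.mp hq).2.1
      rw [this, Finset.card_empty, Nat.cast_zero]
      positivity
  have h1 : (Q.card : ℝ) ≤ ∑ n ∈ Finset.Icc 1 K, ((QN n).card : ℝ) := by
    have := (Finset.card_le_card hcov).trans Finset.card_biUnion_le
    exact_mod_cast this
  refine h1.trans ((Finset.sum_le_sum hone).trans ?_)
  rw [Finset.sum_const, Nat.card_Icc, Nat.add_sub_cancel, nsmul_eq_mul]
  have hR1 : (1 : ℝ) ≤ R := by exact_mod_cast hR
  have hK0 : (0 : ℝ) ≤ K := Nat.cast_nonneg K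
  have : (K : ℝ) * (K * (3 * R)) = 3 * K ^ 2 * R := by ring
  rw [this]
  apply mul_le_mul_of_nonneg_left _ (by positivity)
  nlinarith

lemma ucount_small : UCount (fun q n => q ≤ n ^ 2 + 1) 2 2 := by
  classical
  intro K R hR hRK hKR Q hQ
  have h1 : Q ⊆ Finset.Icc 1 (K ^ 2 + 1) := by
    intro q hq
    obtain ⟨g1, g2, n, g3, g4, g5, g6⟩ := hQ q hq
    rw [Finset.mem_Icc]
    have := Nat.pow_le_pow_left g4 2
    omega
  have h2 := Finset.card_le_card h1
  rw [Nat.card_Icc, Nat.add_sub_cancel] at h2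
  have h3 : (Q.card : ℝ) ≤ (K : ℝ) ^ 2 + 1 := by exact_mod_cast h2
  have hK1 : (1 : ℝ) ≤ (K : ℝ) ^ 2 := by
    have : 1 ≤ K := le_trans (Nat.one_le_pow _ _ hR) hRK
    exact_mod_cast Nat.one_le_pow 2 K this
  refine (h3.trans (by linarith : (K : ℝ) ^ 2 + 1 ≤ 2 * K ^ 2)).trans
    (ucount_sq (by norm_num) hR)

/-- the bad pairs for the Fermat equation with two square terms -/
def WF (q n : ℕ) : Prop :=
  q ≤ n ^ 2 + 1 ∨ (4 : ZMod q) ^ n = 1 ∨ (n : ZMod q) ^ n = 1 ∨ T1 q n ∨ T2 q n

lemma usparse_const (Bd : ℕ → ℕ → Prop) (C : ℝ) (q0 : ℕ) (h : UCount Bd C q0) :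
    USparse (fun _ q n => Bd q n) := by
  obtain ⟨A, hA⟩ : ∃ A : ℕ, C ≤ 2 ^ A ∧ q0 ≤ 2 ^ A := by
    obtain ⟨A1, h1⟩ := pow_unbounded_of_one_lt C (show (1 : ℝ) < 2 by norm_num)
    refine ⟨max A1 q0, ?_, ?_⟩
    · exact h1.le.trans (pow_le_pow_right₀ (by norm_num) (le_max_left _ _))
    · exact (Nat.lt_two_pow_self (n := q0)).le.trans
        (Nat.pow_le_pow_right (by norm_num) (le_max_right _ _))
  refine ⟨A, fun m => h.weak ?_ ?_⟩
  · refine hA.1.trans (pow_le_pow_left₀ (by norm_num) ?_ A)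
    have : (0 : ℝ) ≤ m := Nat.cast_nonneg m
    linarith
  · exact hA.2.trans (Nat.pow_le_pow_left (by omega) A)

theorem usparse_WF : USparse (fun _ q n => WF q n) := by
  obtain ⟨C1, hC1, h1⟩ := ucount_T1
  obtain ⟨C2, hC2, h2⟩ := ucount_T2
  have h4 : UCount (fun q n => (4 : ZMod q) ^ n = 1) (Real.log (((4 : ℕ) : ℝ) + ((1 : ℕ) : ℝ)) /
      Real.log 2) 2 := by
    refine (ucount_num 4 1 (by norm_num) le_rfl (by norm_num) 2).mono ?_
    intro q n _ _ _ hh
    rw [Nat.cast_one, one_pow, Nat.cast_ofNat]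
    exact hh
  exact usparse_const _ _ _ (ucount_small.or (h4.or (ucount_nn.or (h1.or h2))))

end Pool.Agent.H326.KQ
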