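import Pool.Agent.H326.KQ.C
import Mathlib

/-!
Ideal factorisations of the Fermat equation over an imaginary quadratic field.
-/

set_option autoImplicit false

namespace Pool.Agent.H326.KQ

open NumberField Finset UniqueFactorizationMonoid

variable {K : Type} [Field K] [NumberField K]

lemma span_ne {a : 𝓞 K} (ha : a ≠ 0) : Ideal.span {a} ≠ (0 : Ideal (𝓞 K)) := by
  rw [Ne, Ideal.zero_eq_bot, Ideal.span_singleton_eq_bot]
  exact ha

/-- an element generating the `s`-th power of an ideal is an `s`-th power -/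
lemma pow_of_ideal (hK : Module.finrank ℚ K = 2) (hC : IsTotallyComplex K) {s : ℕ} (hs : s.Prime)
    (h5 : 5 ≤ s) (hh : ¬ s ∣ classNumber K) (a : 𝓞 K) (J : Ideal (𝓞 K))
    (hJ : Ideal.span {a} = J ^ s) : ∃ d, a = d ^ s := by
  have hJp : J.IsPrincipal := by
    apply Ideal.IsPrincipal.of_isPrincipal_pow_of_coprime (n := s)
    · exact (Nat.Prime.coprime_iff_not_dvd hs).2 hh
    · rw [← hJ]
      exact ⟨a, rfl⟩
  obtain ⟨w, hw⟩ := hJp
  have hJw : J = Ideal.span {w} := hw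
  rw [hJw, Ideal.span_singleton_pow, Ideal.span_singleton_eq_span_singleton] at hJ
  obtain ⟨u, hu⟩ := hJ.symm
  obtain ⟨η, hη⟩ := unit_root hK hC hs h5 u
  refine ⟨w * (η : 𝓞 K), ?_⟩
  rw [mul_pow, ← hu, hη]
  push_cast
  rfl

lemma fac {s : ℕ} (hs0 : s ≠ 0) (E F A' B' : Ideal (𝓞 K)) (a b c : 𝓞 K) (hc : c ≠ 0)
    (ha : Ideal.span {a} = E ^ s * A') (hb : Ideal.span {b} = F ^ s * B')
    (hco : IsCoprime A' B') (h : a * b = c ^ s) :
    (∃ U, A' = U ^ s) ∧ (∃ V, B' = V ^ s) := by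
  classical
  have h1 : (E * F) ^ s * (A' * B') = Ideal.span {c} ^ s := by
    rw [Ideal.span_singleton_pow, ← h, ← Ideal.span_singleton_mul_span_singleton, ha, hb]
    ring
  have hc0 := span_ne hc
  have h2 : E * F ∣ Ideal.span {c} := by
    rw [← UniqueFactorizationMonoid.pow_dvd_pow_iff_dvd hs0]
    exact Dvd.intro _ h1
  obtain ⟨C', hC'⟩ := h2
  have hEF : (E * F) ^ s ≠ 0 := by
    intro h3
    rw [h3, zero_mul] at h1
    exact pow_ne_zero s hc0 h1.symm
  have h3 : A' * B' = C' ^ s := by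
    rw [hC', mul_pow (E * F) C' s] at h1
    exact mul_left_cancel₀ hEF h1
  exact ⟨exists_eq_pow_of_mul_eq_pow_of_coprime hco h3,
    exists_eq_pow_of_mul_eq_pow_of_coprime hco.symm (by rw [mul_comm]; exact h3)⟩

lemma le_cancel {I A B : Ideal (𝓞 K)} (hI : I ≠ 0) (h : I * A ≤ I * B) : A ≤ B := by
  rw [← Ideal.dvd_iff_le] at h ⊢
  exact (mul_dvd_mul_iff_left hI).mp h

lemma not_both {A B Q : Ideal (𝓞 K)} (hco : IsCoprime A B) (hQ : Q.IsPrime) (hA : A ≤ Q)
    (hB : B ≤ Q) : False := by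
  have h1 : A ⊔ B = ⊤ := hco.sup_eq
  have h2 : A ⊔ B ≤ Q := sup_le hA hB
  rw [h1, top_le_iff] at h2
  exact hQ.ne_top h2

lemma coprime_ideals {I J : Ideal (𝓞 K)} (h : ∀ Q : Ideal (𝓞 K), Q.IsPrime → I ≤ Q → J ≤ Q → False) :
    IsCoprime I J :=
  Ideal.coprime_of_no_prime_ge (fun Q h1 h2 h3 => h Q h3 h1 h2)

/-- Barlow's relations -/
lemma barlow (hK : Module.finrank ℚ K = 2) (hC : IsTotallyComplex K) {s : ℕ} (hs : s.Prime)
    (h5 : 5 ≤ s) (hh : ¬ s ∣ classNumber K) (E A1 B1 C1 : Ideal (𝓞 K)) (A B C : 𝓞 K) (hC0 : C ≠ 0)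
    (hA : Ideal.span {A} = E ^ s * A1) (hB : Ideal.span {B} = E ^ s * B1)
    (hCC : Ideal.span {C} = E ^ s * C1) (hco : IsCoprime A1 B1)
    (hsC : ∀ Q : Ideal (𝓞 K), Q.IsPrime → (s : 𝓞 K) ∈ Q → C1 ≤ Q → False)
    (h : A ^ s - B ^ s = C ^ s) :
    (∃ a, A - B = a ^ s) ∧ (∃ b, ∑ i ∈ range s, A ^ i * B ^ (s - 1 - i) = b ^ s) := by
  classical
  have hs0 : s ≠ 0 := by omega
  obtain ⟨I, hI⟩ : ∃ I, I = E ^ s := ⟨_, rfl⟩
  have hI0 : I ≠ 0 := by
    intro h1
    rw [← hI, h1, zero_mul] at hCC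
    exact span_ne hC0 hCC
  obtain ⟨Φ, hΦ⟩ : ∃ Φ, Φ = ∑ i ∈ range s, A ^ i * B ^ (s - 1 - i) := ⟨_, rfl⟩
  have hAI : A ∈ I := by
    rw [← Ideal.dvd_span_singleton, hA, hI]
    exact Dvd.intro _ rfl
  have hBI : B ∈ I := by
    rw [← Ideal.dvd_span_singleton, hB, hI]
    exact Dvd.intro _ rfl
  obtain ⟨P1, hP1⟩ : I ∣ Ideal.span {A - B} := Ideal.dvd_span_singleton.mpr (I.sub_mem hAI hBI)
  obtain ⟨P2, hP2⟩ : I ^ (s - 1) ∣ Ideal.span {Φ} := by
    rw [Ideal.dvd_span_singleton, hΦ]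
    apply Ideal.sum_mem
    intro i hi
    rw [Finset.mem_range] at hi
    have e : I ^ (s - 1) = I ^ i * I ^ (s - 1 - i) := by
      rw [← pow_add]
      congr 1
      omega
    rw [e]
    exact Ideal.mul_mem_mul (Ideal.pow_mem_pow hAI i) (Ideal.pow_mem_pow hBI _)
  have hmul : Φ * (A - B) = C ^ s := by rw [hΦ, geom_sum₂_mul, h]
  have hprod : C1 ^ s = P1 * P2 := by
    have e1 : I ^ s * C1 ^ s = I ^ s * (P1 * P2) := by
      calc I ^ s * C1 ^ s = (Ideal.span {C}) ^ s := by rw [hCC, hI, mul_pow]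
        _ = Ideal.span {Φ} * Ideal.span {A - B} := by
            rw [Ideal.span_singleton_pow, ← hmul, Ideal.span_singleton_mul_span_singleton]
        _ = I ^ (s - 1 + 1) * (P1 * P2) := by rw [hP1, hP2, pow_succ]; ring
        _ = _ := by
            have : s - 1 + 1 = s := by omega
            rw [this]
    exact mul_left_cancel₀ (pow_ne_zero s hI0) e1
  have hcop : IsCoprime P1 P2 := by
    apply coprime_ideals
    intro Q hQ hQ1 hQ2
    have hAB : A - B ∈ I * Q := by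
      rw [← Ideal.span_singleton_le_iff_mem, hP1]
      exact Ideal.mul_mono_right hQ1
    have hΦQ : Φ ∈ I ^ (s - 1) * Q := by
      rw [← Ideal.span_singleton_le_iff_mem, hP2]
      exact Ideal.mul_mono_right hQ2
    have hdiff : ∀ i : ℕ, A ^ i - B ^ i ∈ I ^ i * Q := by
      intro i
      induction i with
      | zero => rw [pow_zero, pow_zero, pow_zero, sub_self]; exact Ideal.zero_mem _
      | succ i ih =>
        have e : A ^ (i + 1) - B ^ (i + 1) = A * (A ^ i - B ^ i) + B ^ i * (A - B) := by ring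
        rw [e]
        apply Ideal.add_mem
        · have e2 : I ^ (i + 1) * Q = I * (I ^ i * Q) := by ring
          rw [e2]
          exact Ideal.mul_mem_mul hAI ih
        · have e2 : I ^ (i + 1) * Q = I ^ i * (I * Q) := by ring
          rw [e2]
          exact Ideal.mul_mem_mul (Ideal.pow_mem_pow hBI i) hAB
    have hsB : (s : 𝓞 K) * B ^ (s - 1) ∈ I ^ (s - 1) * Q := by
      have e : (s : 𝓞 K) * B ^ (s - 1) = Φ - ∑ i ∈ range s, (A ^ i - B ^ i) * B ^ (s - 1 - i) := by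
        rw [hΦ, ← Finset.sum_sub_distrib]
        rw [Finset.sum_congr rfl (g := fun _ => B ^ (s - 1)) (by
          intro i hi
          rw [Finset.mem_range] at hi
          have e2 : B ^ (s - 1) = B ^ i * B ^ (s - 1 - i) := by
            rw [← pow_add]
            congr 1
            omega
          rw [e2]
          ring)]
        rw [Finset.sum_const, card_range, nsmul_eq_mul]
      rw [e]
      apply Ideal.sub_mem _ hΦQ
      apply Ideal.sum_mem
      intro i hi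
      rw [Finset.mem_range] at hi
      have e2 : I ^ (s - 1) * Q = (I ^ i * Q) * I ^ (s - 1 - i) := by
        have e3 : I ^ (s - 1) = I ^ i * I ^ (s - 1 - i) := by
          rw [← pow_add]
          congr 1
          omega
        rw [e3]
        ring
      rw [e2]
      exact Ideal.mul_mem_mul (hdiff i) (Ideal.pow_mem_pow hBI _)
    have hle : Ideal.span {(s : 𝓞 K)} * B1 ^ (s - 1) ≤ Q := by
      apply le_cancel (pow_ne_zero (s - 1) hI0)
      have e : I ^ (s - 1) * (Ideal.span {(s : 𝓞 K)} * B1 ^ (s - 1)) =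
          Ideal.span {(s : 𝓞 K) * B ^ (s - 1)} := by
        rw [← Ideal.span_singleton_mul_span_singleton, ← Ideal.span_singleton_pow, hB, ← hI,
          mul_pow]
        ring
      rw [e, Ideal.span_singleton_le_iff_mem]
      exact hsB
    rcases hQ.mul_le.mp hle with h1 | h1
    · rw [Ideal.span_singleton_le_iff_mem] at h1
      apply hsC Q hQ h1
      have h2 : C1 ^ s ≤ Q := by
        rw [hprod]
        exact Ideal.mul_le_left.trans hQ1
      exact hQ.le_of_pow_le h2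
    · have hB1 : B1 ≤ Q := hQ.le_of_pow_le h1
      have hA1 : A1 ≤ Q := by
        apply le_cancel hI0
        have e : I * A1 = Ideal.span {A} := by rw [hA, hI]
        rw [e, Ideal.span_singleton_le_iff_mem]
        have e2 : A = (A - B) + B := by ring
        rw [e2]
        apply Ideal.add_mem _ hAB
        rw [← Ideal.span_singleton_le_iff_mem, hB, ← hI]
        exact Ideal.mul_mono_right hB1
      exact not_both hco hQ hA1 hB1
  obtain ⟨⟨U, hU⟩, ⟨V, hV⟩⟩ := fac hs0 E (E ^ (s - 1)) P1 P2 (A - B) Φ C hC0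
    (by rw [hP1, hI]) (by rw [hP2, hI, ← pow_mul, ← pow_mul, mul_comm s]) hcop
    (by rw [mul_comm]; exact hmul)
  refine ⟨pow_of_ideal hK hC hs h5 hh _ (E * U) (by rw [hP1, hI, hU, mul_pow]), ?_⟩
  rw [← hΦ]
  exact pow_of_ideal hK hC hs h5 hh _ (E ^ (s - 1) * V)
    (by rw [hP2, hI, hV, mul_pow, ← pow_mul, ← pow_mul, mul_comm s])

/-- the third term -/
lemma third {s : ℕ} (hs0 : s ≠ 0) (I A1 B1 C1 Q : Ideal (𝓞 K)) (hI0 : I ≠ 0) (A B C : 𝓞 K)
    (hA : Ideal.span {A} = I * A1) (hB : Ideal.span {B} = I * B1)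
    (hCC : Ideal.span {C} = I * C1) (h : A ^ s + B ^ s = C ^ s) (h1 : A1 ≤ Q) (h2 : B1 ≤ Q) :
    C1 ≤ Q := by
  have g1 : A ∈ I * Q := by
    rw [← Ideal.span_singleton_le_iff_mem, hA]
    exact Ideal.mul_mono_right h1
  have g2 : B ∈ I * Q := by
    rw [← Ideal.span_singleton_le_iff_mem, hB]
    exact Ideal.mul_mono_right h2
  have g3 : (I * Q) ^ s ∣ Ideal.span {C} ^ s := by
    rw [Ideal.span_singleton_pow, Ideal.dvd_span_singleton, ← h]
    exact Ideal.add_mem _ (Ideal.pow_mem_pow g1 s) (Ideal.pow_mem_pow g2 s)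
  rw [UniqueFactorizationMonoid.pow_dvd_pow_iff_dvd hs0, hCC, mul_dvd_mul_iff_left hI0,
    Ideal.dvd_iff_le] at g3
  exact g3

end Pool.Agent.H326.KQ
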