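import Pool.Agent.H326.KQ.F
import Pool.Agent.H326.KQ.G

/-!
The Fermat equation with two square terms over an imaginary quadratic field: the two factors
`z^s - y^s` and `z^s + y^s`, the choice of the common ideal, and the local contradiction.
-/

set_option autoImplicit false

namespace Pool.Agent.H326.KQ

open NumberField Finset UniqueFactorizationMonoid Pool.Agent.H573.AHB

/-- there is only one prime ideal above `2` -/
def OneTwo (K : Type) [Field K] [NumberField K] : Prop :=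
  ∀ P Q : Ideal (𝓞 K), P.IsPrime → Q.IsPrime → (2 : 𝓞 K) ∈ P → (2 : 𝓞 K) ∈ Q → P = Q

variable {K : Type} [Field K] [NumberField K]

lemma absNorm_two (hK : Module.finrank ℚ K = 2) :
    Ideal.absNorm (Ideal.span {(2 : 𝓞 K)}) = 4 := by
  rw [Ideal.absNorm_span_singleton]
  have h2 := norm_nat hK 2
  rw [Nat.cast_ofNat] at h2
  rw [h2]
  rfl

lemma sq_le_two (hK : Module.finrank ℚ K = 2) (h : OneTwo K) (P : Ideal (𝓞 K)) (hP : P.IsPrime)
    (h2 : (2 : 𝓞 K) ∈ P) : P ^ 2 ≤ Ideal.span {(2 : 𝓞 K)} := by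
  classical
  have h20 : Ideal.span {(2 : 𝓞 K)} ≠ ⊥ := by
    rw [Ne, Ideal.span_singleton_eq_bot]
    exact two_ne_zero
  obtain ⟨k, hk⟩ : ∃ k, k = Multiset.card (normalizedFactors (Ideal.span {(2 : 𝓞 K)})) :=
    ⟨_, rfl⟩
  have h3 : normalizedFactors (Ideal.span {(2 : 𝓞 K)}) = Multiset.replicate k P := by
    rw [hk, Multiset.eq_replicate_card]
    intro Q hQ
    have hQp := prime_of_normalized_factor Q hQ
    exact h Q P (Ideal.isPrime_of_prime hQp) hP
      (Ideal.dvd_span_singleton.mp (dvd_of_mem_normalizedFactors hQ)) h2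
  have h4 : Ideal.span {(2 : 𝓞 K)} = P ^ k := by
    rw [← Ideal.prod_normalizedFactors_eq_self h20, h3, Multiset.prod_replicate]
  have h5 := absNorm_two hK
  rw [h4, map_pow] at h5
  have h6 : 2 ≤ Ideal.absNorm P := by
    have g0 : Ideal.absNorm P ≠ 0 := by
      intro h0
      rw [Ideal.absNorm_eq_zero_iff] at h0
      rw [h0] at h2
      exact two_ne_zero ((Ideal.mem_bot).mp h2)
    have g1 : Ideal.absNorm P ≠ 1 := by
      intro h0
      rw [Ideal.absNorm_eq_one_iff] at h0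
      exact hP.ne_top h0
    omega
  have h7 : k ≤ 2 := by
    by_contra hcon
    have e1 : 2 ^ 3 ≤ 2 ^ k := Nat.pow_le_pow_right (by norm_num) (by omega)
    have e2 : 2 ^ k ≤ Ideal.absNorm P ^ k := Nat.pow_le_pow_left h6 k
    omega
  rw [h4]
  exact Ideal.pow_le_pow_right h7

lemma half_le (P A B : Ideal (𝓞 K)) (hP : Prime P) (h : A * B ≤ P ^ 4) : A ≤ P ^ 2 ∨ B ≤ P ^ 2 := by
  rw [← Ideal.dvd_iff_le] at h
  rw [← Ideal.dvd_iff_le, ← Ideal.dvd_iff_le]
  by_cases h1 : P ∣ A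
  · obtain ⟨A2, rfl⟩ := h1
    by_cases h2 : P ∣ A2
    · left
      rw [pow_two]
      exact mul_dvd_mul_left P h2
    · right
      have h3 : P ^ 3 ∣ A2 * B := by
        have e : P ^ 4 = P * P ^ 3 := by ring
        rw [e, mul_assoc] at h
        exact (mul_dvd_mul_iff_left hP.ne_zero).mp h
      exact (pow_dvd_pow P (by norm_num)).trans (hP.pow_dvd_of_dvd_mul_left 3 h2 h3)
  · right
    exact (pow_dvd_pow P (by norm_num)).trans (hP.pow_dvd_of_dvd_mul_left 4 h1 h)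

section
variable (hK : Module.finrank ℚ K = 2) (hC : IsTotallyComplex K) {s : ℕ} (hs : s.Prime)
  (h5 : 5 ≤ s) (hh : ¬ s ∣ classNumber K)
include hK hC hs h5 hh

lemma side (J A' B' : Ideal (𝓞 K)) (a b x : 𝓞 K) (hx : x ≠ 0)
    (ha : Ideal.span {a} = J ^ s * (Ideal.span {(2 : 𝓞 K)} * A'))
    (hb : Ideal.span {b} = J ^ s * (Ideal.span {(2 : 𝓞 K)} * B')) (hco : IsCoprime A' B')
    (hB : ∀ Q : Ideal (𝓞 K), Q.IsPrime → (2 : 𝓞 K) ∈ Q → B' ≤ Q → False) (hab : a * b = x ^ s) :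
    ∃ u v : 𝓞 K, 2 * a = u ^ s ∧ b = 2 * v ^ s := by
  have hs0 : s ≠ 0 := by omega
  have h20 : Ideal.span {(2 : 𝓞 K)} ≠ 0 := span_ne two_ne_zero
  obtain ⟨b', hb'⟩ : (2 : 𝓞 K) ∣ b := by
    rw [← Ideal.mem_span_singleton, ← Ideal.dvd_span_singleton, hb]
    exact ⟨J ^ s * B', by ring⟩
  have hbb : Ideal.span {b'} = J ^ s * B' := by
    rw [hb', ← Ideal.span_singleton_mul_span_singleton] at hb
    apply mul_left_cancel₀ h20
    rw [hb]
    ring
  have haa : Ideal.span {2 * a} = J ^ s * (Ideal.span {(2 : 𝓞 K)} ^ 2 * A') := by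
    rw [← Ideal.span_singleton_mul_span_singleton, ha]
    ring
  have hcop : IsCoprime (Ideal.span {(2 : 𝓞 K)} ^ 2 * A') B' := by
    apply coprime_ideals
    intro Q hQ h1 h2
    rcases hQ.mul_le.mp h1 with h3 | h3
    · have h4 := hQ.le_of_pow_le h3
      rw [Ideal.span_singleton_le_iff_mem] at h4
      exact hB Q hQ h4 h2
    · exact not_both hco hQ h3 h2
  have hprod : (2 * a) * b' = x ^ s := by
    rw [← hab, hb']
    ring
  obtain ⟨⟨U, hU⟩, ⟨V, hV⟩⟩ := fac hs0 J J _ B' (2 * a) b' x hx haa hbb hcop hprod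
  obtain ⟨u, hu⟩ := pow_of_ideal hK hC hs h5 hh (2 * a) (J * U) (by rw [haa, hU, mul_pow])
  obtain ⟨v, hv⟩ := pow_of_ideal hK hC hs h5 hh b' (J * V) (by rw [hbb, hV, mul_pow])
  exact ⟨u, v, hu, by rw [hb', hv]⟩

/-- the factorisation of `x^s = (z^s - y^s)(z^s + y^s)` -/
theorem two (J X1 Y1 Z1 : Ideal (𝓞 K)) (x y z : 𝓞 K) (hx : x ≠ 0)
    (hy : Ideal.span {y} = J * Y1) (hz : Ideal.span {z} = J * Z1)
    (hxx : Ideal.span {x} = J ^ 2 * X1) (hco : IsCoprime Y1 Z1)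
    (h : x ^ s + y ^ (2 * s) = z ^ (2 * s))
    (h2 : (∀ Q : Ideal (𝓞 K), Q.IsPrime → (2 : 𝓞 K) ∈ Q → X1 ≤ Q → False) ∨ OneTwo K) :
    (∃ u v : 𝓞 K, z ^ s - y ^ s = u ^ s ∧ z ^ s + y ^ s = v ^ s) ∨
    (∃ u v : 𝓞 K, 2 * (z ^ s - y ^ s) = u ^ s ∧ z ^ s + y ^ s = 2 * v ^ s) ∨
    (∃ u v : 𝓞 K, 2 * (z ^ s + y ^ s) = u ^ s ∧ z ^ s - y ^ s = 2 * v ^ s) := by
  classical
  have hs0 : s ≠ 0 := by omega
  have h20 : Ideal.span {(2 : 𝓞 K)} ≠ 0 := span_ne two_ne_zero
  have hJ0 : J ≠ 0 := by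
    intro h1
    rw [h1, zero_pow two_ne_zero, zero_mul] at hxx
    exact span_ne hx hxx
  have hJs : J ^ s ≠ 0 := pow_ne_zero _ hJ0
  have hyJ : y ^ s ∈ J ^ s := by
    apply Ideal.pow_mem_pow
    rw [← Ideal.dvd_span_singleton, hy]
    exact Dvd.intro _ rfl
  have hzJ : z ^ s ∈ J ^ s := by
    apply Ideal.pow_mem_pow
    rw [← Ideal.dvd_span_singleton, hz]
    exact Dvd.intro _ rfl
  obtain ⟨a, ha⟩ : ∃ a, a = z ^ s - y ^ s := ⟨_, rfl⟩
  obtain ⟨b, hb⟩ : ∃ b, b = z ^ s + y ^ s := ⟨_, rfl⟩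
  have hab : a * b = x ^ s := by
    rw [ha, hb]
    have e : x ^ s = z ^ (2 * s) - y ^ (2 * s) := eq_sub_of_add_eq h
    rw [e]
    ring
  obtain ⟨A, hA⟩ : J ^ s ∣ Ideal.span {a} := by
    rw [Ideal.dvd_span_singleton, ha]
    exact Ideal.sub_mem _ hzJ hyJ
  obtain ⟨B, hB⟩ : J ^ s ∣ Ideal.span {b} := by
    rw [Ideal.dvd_span_singleton, hb]
    exact Ideal.add_mem _ hzJ hyJ
  -- a common prime factor
  have hcom : ∀ (c : 𝓞 K) (Q : Ideal (𝓞 K)), Q.IsPrime → (c * z ^ s ∈ J ^ s * Q) →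
      (c * y ^ s ∈ J ^ s * Q) → c ∈ Q := by
    intro c Q hQ h3 h4
    have e1 : ∀ (t : 𝓞 K) (T1 : Ideal (𝓞 K)), Ideal.span {t} = J * T1 → c * t ^ s ∈ J ^ s * Q →
        c ∈ Q ∨ T1 ≤ Q := by
      intro t T1 ht hct
      have e2 : Ideal.span {c} * T1 ^ s ≤ Q := by
        apply le_cancel hJs
        have e3 : J ^ s * (Ideal.span {c} * T1 ^ s) = Ideal.span {c * t ^ s} := by
          rw [← Ideal.span_singleton_mul_span_singleton, ← Ideal.span_singleton_pow, ht, mul_pow]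
          ring
        rw [e3, Ideal.span_singleton_le_iff_mem]
        exact hct
      rcases hQ.mul_le.mp e2 with h5 | h5
      · left
        exact (Ideal.span_singleton_le_iff_mem _).mp h5
      · right
        exact hQ.le_of_pow_le h5
    rcases e1 z Z1 hz h3 with h5 | h5
    · exact h5
    · rcases e1 y Y1 hy h4 with h6 | h6
      · exact h6
      · exact (not_both hco hQ h6 h5).elim
  have hAB : A * B = X1 ^ s := by
    apply mul_left_cancel₀ (mul_ne_zero hJs hJs)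
    calc J ^ s * J ^ s * (A * B) = Ideal.span {a} * Ideal.span {b} := by rw [hA, hB]; ring
      _ = Ideal.span {x} ^ s := by
          rw [Ideal.span_singleton_mul_span_singleton, hab, Ideal.span_singleton_pow]
      _ = _ := by rw [hxx]; ring
  have htwo : ∀ Q : Ideal (𝓞 K), Q.IsPrime → A ≤ Q → B ≤ Q → (2 : 𝓞 K) ∈ Q := by
    intro Q hQ h3 h4
    have e1 : a ∈ J ^ s * Q := by
      rw [← Ideal.span_singleton_le_iff_mem, hA]
      exact Ideal.mul_mono_right h3
    have e2 : b ∈ J ^ s * Q := by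
      rw [← Ideal.span_singleton_le_iff_mem, hB]
      exact Ideal.mul_mono_right h4
    apply hcom 2 Q hQ
    · have e3 : 2 * z ^ s = a + b := by rw [ha, hb]; ring
      rw [e3]
      exact Ideal.add_mem _ e1 e2
    · have e3 : 2 * y ^ s = b - a := by rw [ha, hb]; ring
      rw [e3]
      exact Ideal.sub_mem _ e2 e1
  rw [← ha, ← hb]
  by_cases hcase : ∃ Q : Ideal (𝓞 K), Q.IsPrime ∧ A ≤ Q ∧ B ≤ Q
  · right
    obtain ⟨Q, hQ, hAQ, hBQ⟩ := hcase
    have h2Q := htwo Q hQ hAQ hBQ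
    have hX1Q : X1 ≤ Q := by
      apply hQ.le_of_pow_le (n := s)
      rw [← hAB]
      exact Ideal.mul_le_left.trans hAQ
    have hone : OneTwo K := by
      rcases h2 with h3 | h3
      · exact (h3 Q hQ h2Q hX1Q).elim
      · exact h3
    have hQ0 : Q ≠ ⊥ := by
      intro h0
      rw [h0] at h2Q
      exact two_ne_zero ((Ideal.mem_bot).mp h2Q)
    have hQp : Prime Q := Ideal.prime_of_isPrime hQ0 hQ
    have hsq := sq_le_two hK hone Q hQ h2Q
    have h4 : A * B ≤ Q ^ 4 := by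
      rw [hAB]
      calc X1 ^ s ≤ Q ^ s := Ideal.pow_right_mono hX1Q s
        _ ≤ Q ^ 4 := Ideal.pow_le_pow_right (by omega)
    have h2a : a ∈ Ideal.span {(2 : 𝓞 K)} * J ^ s ∧ b ∈ Ideal.span {(2 : 𝓞 K)} * J ^ s := by
      have e2y : 2 * y ^ s ∈ Ideal.span {(2 : 𝓞 K)} * J ^ s :=
        Ideal.mul_mem_mul (Ideal.mem_span_singleton_self _) hyJ
      have e1 : ∀ (t : 𝓞 K) (T : Ideal (𝓞 K)), Ideal.span {t} = J ^ s * T → T ≤ Q ^ 2 →
          t ∈ Ideal.span {(2 : 𝓞 K)} * J ^ s := by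
        intro t T ht hT
        rw [← Ideal.span_singleton_le_iff_mem, ht, mul_comm]
        exact Ideal.mul_mono_left (hT.trans hsq)
      rcases half_le Q A B hQp h4 with h6 | h6
      · have e3 := e1 a A hA h6
        refine ⟨e3, ?_⟩
        have e4 : b = a + 2 * y ^ s := by rw [ha, hb]; ring
        rw [e4]
        exact Ideal.add_mem _ e3 e2y
      · have e3 := e1 b B hB h6
        refine ⟨?_, e3⟩
        have e4 : a = b - 2 * y ^ s := by rw [ha, hb]; ring
        rw [e4]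
        exact Ideal.sub_mem _ e3 e2y
    obtain ⟨A', hA'⟩ : Ideal.span {(2 : 𝓞 K)} * J ^ s ∣ Ideal.span {a} :=
      Ideal.dvd_span_singleton.mpr h2a.1
    obtain ⟨B', hB'⟩ : Ideal.span {(2 : 𝓞 K)} * J ^ s ∣ Ideal.span {b} :=
      Ideal.dvd_span_singleton.mpr h2a.2
    have hA'' : Ideal.span {a} = J ^ s * (Ideal.span {(2 : 𝓞 K)} * A') := by rw [hA']; ring
    have hB'' : Ideal.span {b} = J ^ s * (Ideal.span {(2 : 𝓞 K)} * B') := by rw [hB']; ring
    have hcop : IsCoprime A' B' := by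
      apply coprime_ideals
      intro Q' hQ' h6 h7
      have e1 : a ∈ Ideal.span {(2 : 𝓞 K)} * (J ^ s * Q') := by
        rw [← Ideal.span_singleton_le_iff_mem, hA', ← mul_assoc]
        exact Ideal.mul_mono_right h6
      have e2 : b ∈ Ideal.span {(2 : 𝓞 K)} * (J ^ s * Q') := by
        rw [← Ideal.span_singleton_le_iff_mem, hB', ← mul_assoc]
        exact Ideal.mul_mono_right h7
      have e3 : ∀ t : 𝓞 K, 2 * t ∈ Ideal.span {(2 : 𝓞 K)} * (J ^ s * Q') → t ∈ J ^ s * Q' := by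
        intro t ht
        rw [← Ideal.span_singleton_le_iff_mem, ← Ideal.span_singleton_mul_span_singleton] at ht
        rw [← Ideal.span_singleton_le_iff_mem]
        exact le_cancel h20 ht
      have e4 : (1 : 𝓞 K) ∈ Q' := by
        apply hcom 1 Q' hQ'
        · rw [one_mul]
          apply e3
          have e5 : 2 * z ^ s = a + b := by rw [ha, hb]; ring
          rw [e5]
          exact Ideal.add_mem _ e1 e2
        · rw [one_mul]
          apply e3
          have e5 : 2 * y ^ s = b - a := by rw [ha, hb]; ring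
          rw [e5]
          exact Ideal.sub_mem _ e2 e1
      exact hQ'.ne_top ((Ideal.eq_top_iff_one Q').mpr e4)
    by_cases hBB : B' ≤ Q
    · right
      refine side hK hC hs h5 hh J B' A' b a x hx hB'' hA'' hcop.symm ?_ (by rw [mul_comm]; exact hab)
      intro Q' hQ' h6 h7
      have e := hone Q' Q hQ' hQ h6 h2Q
      rw [e] at h7
      exact not_both hcop hQ h7 hBB
    · left
      refine side hK hC hs h5 hh J A' B' a b x hx hA'' hB'' hcop ?_ hab
      intro Q' hQ' h6 h7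
      have e := hone Q' Q hQ' hQ h6 h2Q
      rw [e] at h7
      exact hBB h7
  · left
    have hcop : IsCoprime A B := by
      apply coprime_ideals
      intro Q hQ h3 h4
      exact hcase ⟨Q, hQ, h3, h4⟩
    obtain ⟨⟨U, hU⟩, ⟨V, hV⟩⟩ := fac hs0 J J A B a b x hx hA hB hcop hab
    obtain ⟨u, hu⟩ := pow_of_ideal hK hC hs h5 hh a (J * U) (by rw [hA, hU, mul_pow])
    obtain ⟨v, hv⟩ := pow_of_ideal hK hC hs h5 hh b (J * V) (by rw [hB, hV, mul_pow])
    exact ⟨u, v, hu, hv⟩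

end

/-- the common ideal can be chosen as an `s`-th power prime to a given prime ideal -/
lemma scale {s : ℕ} (hs : s.Prime) (hh : ¬ s ∣ classNumber K) (J P : Ideal (𝓞 K)) (hJ : J ≠ 0)
    (hP : P.IsPrime) (hP0 : P ≠ 0) :
    ∃ (α g : 𝓞 K) (D : Ideal (𝓞 K)), α ≠ 0 ∧ g ≠ 0 ∧
      J * Ideal.span {α ^ s} = Ideal.span {g} * D ^ s ∧ ¬ D ≤ P := by
  classical
  have hh0 : 0 < classNumber K := classNumber_pos K
  have hNZ : NeZero (classNumber K) := ⟨hh0.ne'⟩
  have hco : Nat.Coprime s (classNumber K) := (Nat.Prime.coprime_iff_not_dvd hs).mpr hh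
  obtain ⟨k, l, hkl⟩ : ∃ k l : ℕ, k * s + 1 = classNumber K * l := by
    refine ⟨(-((s : ZMod (classNumber K))⁻¹)).val, ?_⟩
    have e1 : (((-((s : ZMod (classNumber K))⁻¹)).val * s + 1 : ℕ) : ZMod (classNumber K)) = 0 := by
      push_cast
      rw [ZMod.natCast_zmod_val]
      have e2 := ZMod.coe_mul_inv_eq_one s hco
      linear_combination -e2
    rw [ZMod.natCast_eq_zero_iff] at e1
    exact e1
  have hprin : (J ^ classNumber K).IsPrincipal := by
    have hm : J ^ classNumber K ∈ nonZeroDivisors (Ideal (𝓞 K)) :=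
      mem_nonZeroDivisors_of_ne_zero (pow_ne_zero _ hJ)
    rw [← ClassGroup.mk0_eq_one_iff hm]
    have e : (⟨J ^ classNumber K, hm⟩ : nonZeroDivisors (Ideal (𝓞 K))) =
        ⟨J, mem_nonZeroDivisors_of_ne_zero hJ⟩ ^ classNumber K := by
      apply Subtype.ext
      rfl
    rw [e, map_pow]
    exact pow_card_eq_one
  obtain ⟨γ, hγ⟩ := hprin
  have hγ' : J ^ classNumber K = Ideal.span {γ} := hγ
  have hD0 : J ^ k ≠ 0 := pow_ne_zero _ hJ
  have hg : J * (J ^ k) ^ s = Ideal.span {γ ^ l} := by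
    rw [← Ideal.span_singleton_pow, ← hγ', ← pow_mul, ← pow_mul, ← hkl, pow_succ]
    ring
  have hγ0 : γ ^ l ≠ 0 := by
    intro h0
    rw [h0] at hg
    have : J * (J ^ k) ^ s = 0 := by
      rw [hg, Ideal.zero_eq_bot, Ideal.span_singleton_eq_bot]
    exact mul_ne_zero hJ (pow_ne_zero s hD0) this
  obtain ⟨a, ha⟩ := IsDedekindDomain.exists_sup_span_eq (I := J ^ k * P) (J := J ^ k)
    Ideal.mul_le_left (mul_ne_zero hD0 hP0)
  have haD : a ∈ J ^ k := by
    rw [← ha]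
    exact Ideal.mem_sup_right (Ideal.mem_span_singleton_self a)
  obtain ⟨C, hC⟩ := Ideal.dvd_span_singleton.mpr haD
  have hPC : P ⊔ C = ⊤ := by
    rw [hC, ← Ideal.mul_sup] at ha
    have e : J ^ k * (P ⊔ C) = J ^ k * 1 := by rw [ha, mul_one]
    have := mul_left_cancel₀ hD0 e
    rw [this, Ideal.one_eq_top]
  have hCP : ¬ C ≤ P := by
    intro h
    rw [sup_eq_left.mpr h] at hPC
    exact hP.ne_top hPC
  refine ⟨a, γ ^ l, C, ?_, hγ0, ?_, hCP⟩
  · rintro rfl
    apply hCP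
    have e : J ^ k * C = J ^ k * 0 := by
      rw [← hC, mul_zero, Ideal.zero_eq_bot, Ideal.span_singleton_eq_bot]
    have := mul_left_cancel₀ hD0 e
    rw [this]
    exact bot_le
  · rw [← Ideal.span_singleton_pow, hC, mul_pow, ← mul_assoc, hg]

end Pool.Agent.H326.KQ
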