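import Pool.Agent.H326.KQ.H

/-!
The first case of the Fermat equation with two square terms over an imaginary quadratic field is
impossible if there is one good auxiliary prime.
-/

set_option autoImplicit false

namespace Pool.Agent.H326.KQ

open NumberField Finset UniqueFactorizationMonoid Pool.Agent.H573.AHB

variable {K : Type} [Field K] [NumberField K]

/-- the factor `X1` is prime to `2` if `a` is -/
lemma odd_red (a b c w : 𝓞 K) (J X1 Y1 Z1 : Ideal (𝓞 K)) (hb : b ≠ 0) (hw : b * c = w * w)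
    (hJ0 : J ≠ 0) (hY1 : Ideal.span {b} = J * Y1) (hZ1 : Ideal.span {w} = J * Z1)
    (hX1 : Ideal.span {a * b} = J ^ 2 * X1) (hYZ : IsCoprime Y1 Z1)
    (h2 : IsCoprime a 2 ∨ OneTwo K) :
    (∀ Q : Ideal (𝓞 K), Q.IsPrime → (2 : 𝓞 K) ∈ Q → X1 ≤ Q → False) ∨ OneTwo K := by
  rcases h2 with h3 | h3
  · left
    obtain ⟨r, r', hr⟩ := h3
    intro Q hQ h4 h6
    have e1 : Ideal.span {c} * Y1 = J * Z1 ^ 2 := by
      apply mul_left_cancel₀ hJ0
      calc J * (Ideal.span {c} * Y1) = Ideal.span {b} * Ideal.span {c} := by rw [hY1]; ring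
        _ = Ideal.span {w} * Ideal.span {w} := by
            rw [Ideal.span_singleton_mul_span_singleton, hw,
              Ideal.span_singleton_mul_span_singleton]
        _ = _ := by rw [hZ1]; ring
    obtain ⟨J', hJ'⟩ : Y1 ∣ J := by
      have e2 : Y1 ∣ J * Z1 ^ 2 := by
        rw [← e1]
        exact Dvd.intro_left _ rfl
      exact (hYZ.pow_right (n := 2)).dvd_of_dvd_mul_right e2
    have hY10 : Y1 ≠ 0 := by
      intro h0
      rw [h0, mul_zero] at hY1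
      exact span_ne hb hY1
    have e3 : Ideal.span {a} = J' * X1 := by
      apply mul_left_cancel₀ (mul_ne_zero hJ0 hY10)
      calc J * Y1 * Ideal.span {a} = Ideal.span {a} * Ideal.span {b} := by rw [hY1]; ring
        _ = J ^ 2 * X1 := by rw [Ideal.span_singleton_mul_span_singleton, hX1]
        _ = J * (Y1 * J') * X1 := by rw [← hJ', pow_two]
        _ = _ := by ring
    have h7 : a ∈ Q := by
      rw [← Ideal.span_singleton_le_iff_mem, e3]
      exact Ideal.mul_le_right.trans h6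
    have h8 : (1 : 𝓞 K) ∈ Q := by
      rw [← hr]
      exact Ideal.add_mem _ (Q.mul_mem_left _ h7) (Q.mul_mem_left _ h4)
    exact hQ.ne_top ((Ideal.eq_top_iff_one Q).mpr h8)
  · exact Or.inr h3

section
variable (hK : Module.finrank ℚ K = 2) (hC : IsTotallyComplex K) {s q : ℕ} (hs : s.Prime)
  (h5 : 5 ≤ s) (hh : ¬ s ∣ classNumber K) (hq : q.Prime) (hsq : s ∣ q - 1)
  (hwf : ¬ WF q ((q - 1) / s)) (P : Ideal (𝓞 K)) (ψ : 𝓞 K →+* ZMod q) (hψ : RingHom.ker ψ = P)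
include hK hC hs h5 hh hq hsq hwf hψ

theorem core (hP : P.IsPrime) (D X1 Y1 Z1 : Ideal (𝓞 K)) (hDP : ¬ D ≤ P) (x y z : 𝓞 K)
    (hx0 : x ≠ 0) (hy0 : y ≠ 0) (hz0 : z ≠ 0) (hy : Ideal.span {y} = D ^ s * Y1)
    (hz : Ideal.span {z} = D ^ s * Z1) (hx : Ideal.span {x} = (D ^ s) ^ 2 * X1)
    (hco : IsCoprime Y1 Z1) (h : x ^ s + y ^ (2 * s) = z ^ (2 * s))
    (h2 : (∀ Q : Ideal (𝓞 K), Q.IsPrime → (2 : 𝓞 K) ∈ Q → X1 ≤ Q → False) ∨ OneTwo K)
    (fX : ∀ Q : Ideal (𝓞 K), Q.IsPrime → (s : 𝓞 K) ∈ Q → X1 ≤ Q → False)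
    (fY : ∀ Q : Ideal (𝓞 K), Q.IsPrime → (s : 𝓞 K) ∈ Q → Y1 ≤ Q → False)
    (fZ : ∀ Q : Ideal (𝓞 K), Q.IsPrime → (s : 𝓞 K) ∈ Q → Z1 ≤ Q → False) : False := by
  classical
  have hs0 : s ≠ 0 := by omega
  have hF : Fact q.Prime := ⟨hq⟩
  have hso : Odd s := hs.odd_of_ne_two (by omega)
  obtain ⟨E, hE⟩ : ∃ E, E = D ^ 2 := ⟨_, rfl⟩
  have hEs : E ^ s = (D ^ s) ^ 2 := by rw [hE]; ring
  have hX : Ideal.span {x} = E ^ s * X1 := by rw [hx, hEs]
  have hY : Ideal.span {y ^ 2} = E ^ s * Y1 ^ 2 := by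
    rw [← Ideal.span_singleton_pow, hy, hEs, mul_pow]
  have hZ : Ideal.span {z ^ 2} = E ^ s * Z1 ^ 2 := by
    rw [← Ideal.span_singleton_pow, hz, hEs, mul_pow]
  have hE0 : E ^ s ≠ 0 := by
    intro h1
    rw [h1, zero_mul] at hX
    exact span_ne hx0 hX
  have hEP : ¬ E ≤ P := by
    intro h1
    apply hDP
    rw [hE] at h1
    exact hP.le_of_pow_le h1
  have heq : x ^ s + (y ^ 2) ^ s = (z ^ 2) ^ s := by rw [← pow_mul, ← pow_mul]; exact h
  have hnx : Ideal.span {-x} = E ^ s * X1 := by rw [Ideal.span_singleton_neg, hX]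
  have hny : Ideal.span {-(y ^ 2)} = E ^ s * Y1 ^ 2 := by rw [Ideal.span_singleton_neg, hY]
  have cYZ : IsCoprime (Y1 ^ 2) (Z1 ^ 2) := hco.pow
  have cXY : IsCoprime X1 (Y1 ^ 2) := by
    apply coprime_ideals
    intro Q hQ h1 h3
    exact not_both cYZ hQ h3
      (third hs0 (E ^ s) X1 (Y1 ^ 2) (Z1 ^ 2) Q hE0 x (y ^ 2) (z ^ 2) hX hY hZ heq h1 h3)
  have cXZ : IsCoprime X1 (Z1 ^ 2) := by
    apply coprime_ideals
    intro Q hQ h1 h3
    refine not_both cYZ hQ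
      (third hs0 (E ^ s) (Z1 ^ 2) X1 (Y1 ^ 2) Q hE0 (z ^ 2) (-x) (y ^ 2) hZ hnx hY ?_ h3 h1) h3
    rw [hso.neg_pow, ← heq]
    ring
  have r1 := barlow hK hC hs h5 hh E (Z1 ^ 2) (Y1 ^ 2) X1 (z ^ 2) (y ^ 2) x hx0 hZ hY hX cYZ.symm
    fX (by rw [← heq]; ring)
  have r2 := barlow hK hC hs h5 hh E (Z1 ^ 2) X1 (Y1 ^ 2) (z ^ 2) x (y ^ 2) (pow_ne_zero 2 hy0)
    hZ hX hY cXZ.symm (fun Q hQ h1 h3 => fY Q hQ h1 (hQ.le_of_pow_le h3))
    (by rw [← heq]; ring)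
  have r3 := barlow hK hC hs h5 hh E X1 (Y1 ^ 2) (Z1 ^ 2) x (-(y ^ 2)) (z ^ 2) (pow_ne_zero 2 hz0)
    hX hny hZ cXY (fun Q hQ h1 h3 => fZ Q hQ h1 (hQ.le_of_pow_le h3))
    (by rw [hso.neg_pow, sub_neg_eq_add, heq])
  have red : ∀ (t : 𝓞 K) (T1 : Ideal (𝓞 K)), Ideal.span {t} = E ^ s * T1 → ψ t = 0 → T1 ≤ P := by
    intro t T1 ht h0
    have h1 : t ∈ P := by
      rw [← hψ]
      exact (RingHom.mem_ker).mpr h0
    rw [← Ideal.span_singleton_le_iff_mem, ht] at h1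
    rcases hP.mul_le.mp h1 with h3 | h3
    · exact absurd (hP.le_of_pow_le h3) hEP
    · exact h3
  have hXYZ : ψ (x * y ^ 2 * z ^ 2) = 0 := by
    by_contra hne
    rw [map_mul, map_mul, map_pow, map_pow] at hne
    have nx : ψ x ≠ 0 := by
      intro h0
      rw [h0, zero_mul, zero_mul] at hne
      exact hne rfl
    have ny : ψ y ≠ 0 := by
      intro h0
      rw [h0, zero_pow two_ne_zero, mul_zero, zero_mul] at hne
      exact hne rfl
    have nz : ψ z ≠ 0 := by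
      intro h0
      rw [h0, zero_pow two_ne_zero, mul_zero] at hne
      exact hne rfl
    have hfac : x ^ s = (z ^ s - y ^ s) * (z ^ s + y ^ s) := by
      have e : x ^ s = z ^ (2 * s) - y ^ (2 * s) := eq_sub_of_add_eq h
      rw [e]
      ring
    have nu : ∀ u v : 𝓞 K, x ^ s = u ^ s * v ^ s → ψ u ≠ 0 := by
      intro u v huv h0
      have e := congrArg ψ huv
      rw [map_mul, map_pow, map_pow, map_pow, h0, zero_pow hs0, zero_mul] at e
      exact nx ((pow_eq_zero_iff hs0).mp e)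
    rcases two hK hC hs h5 hh (D ^ s) X1 Y1 Z1 x y z hx0 hy hz hx hco h h2 with
      ⟨u, v, hu, hv⟩ | ⟨u, v, hu, hv⟩ | ⟨u, v, hu, hv⟩
    · have mu := congrArg ψ hu
      have mv := congrArg ψ hv
      rw [map_sub, map_pow, map_pow, map_pow] at mu
      rw [map_add, map_pow, map_pow, map_pow] at mv
      exact locA hq hs (by omega) hsq hwf (ψ y) (ψ z) (ψ u) (ψ v) mu mv ny nz
    · have mu := congrArg ψ hu
      have mv := congrArg ψ hv
      rw [map_mul, map_sub, map_pow, map_pow, map_pow, map_ofNat] at mu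
      rw [map_add, map_mul, map_pow, map_pow, map_pow, map_ofNat] at mv
      refine locB hq hs (by omega) hsq hwf (ψ y) (ψ z) (ψ u) (ψ v) mu mv ny nz (nu u v ?_)
      rw [hfac, hv, ← hu]
      ring
    · have mu := congrArg ψ hu
      have mv := congrArg ψ hv
      rw [map_mul, map_add, map_pow, map_pow, map_pow, map_ofNat] at mu
      rw [map_sub, map_mul, map_pow, map_pow, map_pow, map_ofNat] at mv
      refine locB hq hs (by omega) hsq hwf (-ψ y) (ψ z) (ψ u) (ψ v) ?_ ?_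
        (neg_ne_zero.mpr ny) nz (nu u v ?_)
      · rw [hso.neg_pow, sub_neg_eq_add]
        exact mu
      · rw [hso.neg_pow, ← sub_eq_add_neg]
        exact mv
      · rw [hfac, hv, ← hu]
        ring
  exact first_case hq hs (by omega) hsq hwf ψ x (y ^ 2) (z ^ 2) r1 r2 r3
    (fun h1 h3 => not_both cXY hP (red x X1 hX h1) (red _ _ hY h3))
    (fun h1 h3 => not_both cXZ hP (red x X1 hX h1) (red _ _ hZ h3))
    (fun h1 h3 => not_both cYZ hP (red _ _ hY h1) (red _ _ hZ h3)) heq hXYZ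

/-- no first case solution of `a^s + b^s = c^s` with `b c` a square -/
theorem no_first (hP : P.IsPrime) (a b c w : 𝓞 K) (ha : a ≠ 0) (hb : b ≠ 0) (hc : c ≠ 0)
    (hw : b * c = w * w) (hsa : IsCoprime (s : 𝓞 K) (a * b * c))
    (h2 : IsCoprime a 2 ∨ OneTwo K) (h : a ^ s + b ^ s = c ^ s) : False := by
  classical
  have hs0 : s ≠ 0 := by omega
  have hF : Fact q.Prime := ⟨hq⟩
  have hw0 : w ≠ 0 := by
    rintro rfl
    rw [mul_zero] at hw
    exact mul_ne_zero hb hc hw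
  have hP0 : P ≠ 0 := by
    intro h0
    have e1 : (q : 𝓞 K) ∈ P := by
      rw [← hψ, RingHom.mem_ker, map_natCast]
      exact ZMod.natCast_self q
    rw [h0, Ideal.zero_eq_bot, Ideal.mem_bot] at e1
    exact hq.ne_zero (by exact_mod_cast e1)
  obtain ⟨J, hJ⟩ : ∃ J, J = Ideal.span {b} ⊔ Ideal.span {w} := ⟨_, rfl⟩
  have hbJ : b ∈ J := by
    rw [hJ]
    exact Ideal.mem_sup_left (Ideal.mem_span_singleton_self b)
  have hwJ : w ∈ J := by
    rw [hJ]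
    exact Ideal.mem_sup_right (Ideal.mem_span_singleton_self w)
  have hJ0 : J ≠ 0 := by
    intro h0
    rw [h0, Ideal.zero_eq_bot, Ideal.mem_bot] at hbJ
    exact hb hbJ
  obtain ⟨Y1, hY1⟩ : J ∣ Ideal.span {b} := Ideal.dvd_span_singleton.mpr hbJ
  obtain ⟨Z1, hZ1⟩ : J ∣ Ideal.span {w} := Ideal.dvd_span_singleton.mpr hwJ
  have hYZ : IsCoprime Y1 Z1 := by
    rw [Ideal.isCoprime_iff_sup_eq]
    have e : J * (Y1 ⊔ Z1) = J * 1 := by
      rw [Ideal.mul_sup, ← hY1, ← hZ1, mul_one, ← hJ]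
    have := mul_left_cancel₀ hJ0 e
    rw [this, Ideal.one_eq_top]
  have heq : (a * b) ^ s + b ^ (2 * s) = w ^ (2 * s) := by
    calc (a * b) ^ s + b ^ (2 * s) = b ^ s * (a ^ s + b ^ s) := by ring
      _ = (b * c) ^ s := by rw [h]; ring
      _ = w ^ (2 * s) := by rw [hw]; ring
  obtain ⟨X1, hX1⟩ : J ^ 2 ∣ Ideal.span {a * b} := by
    rw [← UniqueFactorizationMonoid.pow_dvd_pow_iff_dvd hs0, Ideal.span_singleton_pow,
      Ideal.dvd_span_singleton]
    have e : (a * b) ^ s = w ^ (2 * s) - b ^ (2 * s) := eq_sub_of_add_eq heq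
    rw [e, ← pow_mul]
    exact Ideal.sub_mem _ (Ideal.pow_mem_pow hwJ _) (Ideal.pow_mem_pow hbJ _)
  have hab0 : a * b ≠ 0 := mul_ne_zero ha hb
  -- elements prime to `s`
  have hel : ∀ (t : 𝓞 K) (T1 F : Ideal (𝓞 K)), IsCoprime (s : 𝓞 K) t → Ideal.span {t} = F * T1 →
      ∀ Q : Ideal (𝓞 K), Q.IsPrime → (s : 𝓞 K) ∈ Q → T1 ≤ Q → False := by
    rintro t T1 F ⟨r, r', hr⟩ ht Q hQ h3 h4
    have h6 : t ∈ Q := by
      rw [← Ideal.span_singleton_le_iff_mem, ht]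
      exact Ideal.mul_le_right.trans h4
    have h7 : (1 : 𝓞 K) ∈ Q := by
      rw [← hr]
      exact Ideal.add_mem _ (Q.mul_mem_left _ h3) (Q.mul_mem_left _ h6)
    exact hQ.ne_top ((Ideal.eq_top_iff_one Q).mpr h7)
  have hsab : IsCoprime (s : 𝓞 K) (a * b) := hsa.of_mul_right_left
  have hsb : IsCoprime (s : 𝓞 K) b := hsab.of_mul_right_right
  have hsc : IsCoprime (s : 𝓞 K) c := hsa.of_mul_right_right
  have hsw : IsCoprime (s : 𝓞 K) w := by
    have e : IsCoprime (s : 𝓞 K) (w * w) := by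
      rw [← hw]
      exact hsb.mul_right hsc
    exact e.of_mul_right_left
  have h2' := odd_red a b c w J X1 Y1 Z1 hb hw hJ0 hY1 hZ1 hX1 hYZ h2
  obtain ⟨α, g, D, hα, hg, hD, hDP⟩ := scale hs hh J P hJ0 hP hP0
  have hg0 : Ideal.span {g} ≠ (0 : Ideal (𝓞 K)) := span_ne hg
  have hq1 : ∀ (t : 𝓞 K) (T1 : Ideal (𝓞 K)), Ideal.span {t} = J * T1 →
      ∃ t' : 𝓞 K, t * α ^ s = g * t' ∧ Ideal.span {t'} = D ^ s * T1 := by
    intro t T1 ht
    have e1 : Ideal.span {t * α ^ s} = Ideal.span {g} * (D ^ s * T1) := by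
      rw [← Ideal.span_singleton_mul_span_singleton, ht, ← mul_assoc, ← hD]
      ring
    obtain ⟨t', ht'⟩ : g ∣ t * α ^ s := by
      rw [← Ideal.mem_span_singleton, ← Ideal.dvd_span_singleton, e1]
      exact Dvd.intro _ rfl
    refine ⟨t', ht', ?_⟩
    rw [ht', ← Ideal.span_singleton_mul_span_singleton] at e1
    exact mul_left_cancel₀ hg0 e1
  obtain ⟨y, hy1, hy2⟩ := hq1 b Y1 hY1
  obtain ⟨z, hz1, hz2⟩ := hq1 w Z1 hZ1
  obtain ⟨x, hx1, hx2⟩ : ∃ x : 𝓞 K, (a * b) * (α ^ s) ^ 2 = g ^ 2 * x ∧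
      Ideal.span {x} = (D ^ s) ^ 2 * X1 := by
    have e1 : Ideal.span {(a * b) * (α ^ s) ^ 2} = Ideal.span {g} ^ 2 * ((D ^ s) ^ 2 * X1) := by
      rw [← Ideal.span_singleton_mul_span_singleton, hX1, ← Ideal.span_singleton_pow]
      calc J ^ 2 * X1 * Ideal.span {α ^ s} ^ 2 = (J * Ideal.span {α ^ s}) ^ 2 * X1 := by ring
        _ = _ := by rw [hD]; ring
    obtain ⟨x, hx⟩ : g ^ 2 ∣ (a * b) * (α ^ s) ^ 2 := by
      rw [← Ideal.mem_span_singleton, ← Ideal.dvd_span_singleton, e1, ← Ideal.span_singleton_pow]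
      exact Dvd.intro _ rfl
    refine ⟨x, hx, ?_⟩
    rw [hx, ← Ideal.span_singleton_mul_span_singleton, ← Ideal.span_singleton_pow] at e1
    exact mul_left_cancel₀ (pow_ne_zero 2 hg0) e1
  have hαs : α ^ s ≠ 0 := pow_ne_zero s hα
  have nz : ∀ u v t : 𝓞 K, u * v = g * t → u ≠ 0 → v ≠ 0 → t ≠ 0 := by
    rintro u v t h3 hu hv rfl
    rw [mul_zero] at h3
    exact mul_ne_zero hu hv h3
  have hx0 : x ≠ 0 := by
    rintro rfl
    rw [mul_zero] at hx1
    exact mul_ne_zero hab0 (pow_ne_zero 2 hαs) hx1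
  have heq' : x ^ s + y ^ (2 * s) = z ^ (2 * s) := by
    apply mul_left_cancel₀ (pow_ne_zero (2 * s) hg)
    calc g ^ (2 * s) * (x ^ s + y ^ (2 * s)) = (g ^ 2 * x) ^ s + (g * y) ^ (2 * s) := by ring
      _ = ((a * b) * (α ^ s) ^ 2) ^ s + (b * α ^ s) ^ (2 * s) := by rw [hx1, hy1]
      _ = (α ^ s) ^ (2 * s) * ((a * b) ^ s + b ^ (2 * s)) := by ring
      _ = (w * α ^ s) ^ (2 * s) := by rw [heq]; ring
      _ = (g * z) ^ (2 * s) := by rw [hz1]
      _ = _ := by ring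
  exact core hK hC hs h5 hh hq hsq hwf P ψ hψ hP D X1 Y1 Z1 hDP x y z hx0
    (nz b (α ^ s) y hy1 hb hαs) (nz w (α ^ s) z hz1 hw0 hαs) hy2 hz2 hx2 hYZ heq' h2'
    (hel _ _ _ hsab hX1) (hel _ _ _ hsb hY1) (hel _ _ _ hsw hZ1)

/-- the auxiliary primes divide `abc` -/
theorem aux_dvd (a b c w : 𝓞 K) (ha : a ≠ 0) (hb : b ≠ 0) (hc : c ≠ 0)
    (hw : b * c = w * w) (h2 : IsCoprime a 2 ∨ OneTwo K) (h : a ^ s + b ^ s = c ^ s) :
    ψ (a * b * c) = 0 := by
  classical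
  have hs0 : s ≠ 0 := by omega
  have hF : Fact q.Prime := ⟨hq⟩
  have hso : Odd s := hs.odd_of_ne_two (by omega)
  by_contra hne
  rw [map_mul, map_mul] at hne
  have hnb : ψ b ≠ 0 := by
    intro h0
    rw [h0, mul_zero, zero_mul] at hne
    exact hne rfl
  have hnc : ψ c ≠ 0 := by
    intro h0
    rw [h0, mul_zero] at hne
    exact hne rfl
  have hna : ψ a ≠ 0 := by
    intro h0
    rw [h0, zero_mul, zero_mul] at hne
    exact hne rfl
  have hnw : ψ w ≠ 0 := by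
    intro h0
    have e := congrArg ψ hw
    rw [map_mul, map_mul, h0, mul_zero] at e
    exact mul_ne_zero hnb hnc e
  obtain ⟨J, hJ⟩ : ∃ J, J = Ideal.span {b} ⊔ Ideal.span {w} := ⟨_, rfl⟩
  have hbJ : b ∈ J := by
    rw [hJ]
    exact Ideal.mem_sup_left (Ideal.mem_span_singleton_self b)
  have hwJ : w ∈ J := by
    rw [hJ]
    exact Ideal.mem_sup_right (Ideal.mem_span_singleton_self w)
  have hJ0 : J ≠ 0 := by
    intro h0
    rw [h0, Ideal.zero_eq_bot, Ideal.mem_bot] at hbJ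
    exact hb hbJ
  obtain ⟨Y1, hY1⟩ : J ∣ Ideal.span {b} := Ideal.dvd_span_singleton.mpr hbJ
  obtain ⟨Z1, hZ1⟩ : J ∣ Ideal.span {w} := Ideal.dvd_span_singleton.mpr hwJ
  have hYZ : IsCoprime Y1 Z1 := by
    rw [Ideal.isCoprime_iff_sup_eq]
    have e : J * (Y1 ⊔ Z1) = J * 1 := by
      rw [Ideal.mul_sup, ← hY1, ← hZ1, mul_one, ← hJ]
    have := mul_left_cancel₀ hJ0 e
    rw [this, Ideal.one_eq_top]
  have heq : (a * b) ^ s + b ^ (2 * s) = w ^ (2 * s) := by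
    calc (a * b) ^ s + b ^ (2 * s) = b ^ s * (a ^ s + b ^ s) := by ring
      _ = (b * c) ^ s := by rw [h]; ring
      _ = w ^ (2 * s) := by rw [hw]; ring
  obtain ⟨X1, hX1⟩ : J ^ 2 ∣ Ideal.span {a * b} := by
    rw [← UniqueFactorizationMonoid.pow_dvd_pow_iff_dvd hs0, Ideal.span_singleton_pow,
      Ideal.dvd_span_singleton]
    have e : (a * b) ^ s = w ^ (2 * s) - b ^ (2 * s) := eq_sub_of_add_eq heq
    rw [e, ← pow_mul]
    exact Ideal.sub_mem _ (Ideal.pow_mem_pow hwJ _) (Ideal.pow_mem_pow hbJ _)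
  have hab0 : a * b ≠ 0 := mul_ne_zero ha hb
  have h2' := odd_red a b c w J X1 Y1 Z1 hb hw hJ0 hY1 hZ1 hX1 hYZ h2
  have hfac : (a * b) ^ s = (w ^ s - b ^ s) * (w ^ s + b ^ s) := by
    have e : (a * b) ^ s = w ^ (2 * s) - b ^ (2 * s) := eq_sub_of_add_eq heq
    rw [e]
    ring
  have nu : ∀ u v : 𝓞 K, (a * b) ^ s = u ^ s * v ^ s → ψ u ≠ 0 := by
    intro u v huv h0
    have e := congrArg ψ huv
    rw [map_mul, map_pow, map_pow, map_pow, h0, zero_pow hs0, zero_mul, map_mul] at e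
    exact mul_ne_zero hna hnb ((pow_eq_zero_iff hs0).mp e)
  rcases two hK hC hs h5 hh J X1 Y1 Z1 (a * b) b w hab0 hY1 hZ1 hX1 hYZ heq h2' with
    ⟨u, v, hu, hv⟩ | ⟨u, v, hu, hv⟩ | ⟨u, v, hu, hv⟩
  · have mu := congrArg ψ hu
    have mv := congrArg ψ hv
    rw [map_sub, map_pow, map_pow, map_pow] at mu
    rw [map_add, map_pow, map_pow, map_pow] at mv
    exact locA hq hs (by omega) hsq hwf (ψ b) (ψ w) (ψ u) (ψ v) mu mv hnb hnw
  · have mu := congrArg ψ hu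
    have mv := congrArg ψ hv
    rw [map_mul, map_sub, map_pow, map_pow, map_pow, map_ofNat] at mu
    rw [map_add, map_mul, map_pow, map_pow, map_pow, map_ofNat] at mv
    refine locB hq hs (by omega) hsq hwf (ψ b) (ψ w) (ψ u) (ψ v) mu mv hnb hnw (nu u v ?_)
    rw [hfac, hv, ← hu]
    ring
  · have mu := congrArg ψ hu
    have mv := congrArg ψ hv
    rw [map_mul, map_add, map_pow, map_pow, map_pow, map_ofNat] at mu
    rw [map_sub, map_mul, map_pow, map_pow, map_pow, map_ofNat] at mv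
    refine locB hq hs (by omega) hsq hwf (-ψ b) (ψ w) (ψ u) (ψ v) ?_ ?_
      (neg_ne_zero.mpr hnb) hnw (nu u v ?_)
    · rw [hso.neg_pow, sub_neg_eq_add]
      exact mu
    · rw [hso.neg_pow, ← sub_eq_add_neg]
      exact mv
    · rw [hfac, hv, ← hu]
      ring

end

end Pool.Agent.H326.KQ
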